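import Pool.Agent.U695.LG.Wt

/-!
# Means over the polynomials without high powers
-/

set_option autoImplicit false

namespace Pool.Agent.U695.SL

open Polynomial Finset
open scoped Classical
open Pool.Agent.U695.LG (Mn mem_Mn card_Mn Pm mem_Pm card_Pm card_mult Sf mem_Sf gcd_sub_one S1)

variable {k : Type} [Field k] [Finite k]

/-- **The mean of a sum over the prime factors**, over any family of polynomials of degree `d`. -/
theorem mean_gen {n : ℕ} (hn : 0 < n) (d : ℕ) (w : ℕ → ℝ) (hw : ∀ m, 0 ≤ w m)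
    (hw0 : ∀ m, ¬ n ∣ m → w m = 0) (Fam : Finset k[X]) (hFam : Fam ⊆ Mn k d)
    (pf : k[X] → Finset k[X]) (hpf : ∀ D ∈ Fam, ∀ P ∈ pf D, P.Monic ∧ Irreducible P ∧ P ∣ D) :
    ∑ D ∈ Fam, ∑ P ∈ pf D, w P.natDegree ≤
      (∑ j ∈ Finset.range (d / n), w (n * (j + 1)) / (n * (j + 1) : ℕ)) *
        (Nat.card k : ℝ) ^ d := by
  have hq1 : 0 < Nat.card k := Nat.card_pos
  have hq0 : (0 : ℝ) < (Nat.card k : ℝ) := by exact_mod_cast hq1
  have h1 : ∀ D ∈ Fam, ∑ P ∈ pf D, w P.natDegree ≤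
      ∑ j ∈ Finset.range (d / n), ∑ P ∈ Pm k (n * (j + 1)), if P ∣ D then w (n * (j + 1)) else 0 := by
    intro D hD
    have hD' := mem_Mn.1 (hFam hD)
    have h2 : ∑ P ∈ pf D, w P.natDegree =
        ∑ P ∈ (pf D).filter (fun P => n ∣ P.natDegree), w P.natDegree := by
      rw [Finset.sum_filter]
      refine Finset.sum_congr rfl fun P _ => ?_
      split_ifs with h
      · rfl
      · exact hw0 _ h
    have h3 : ∑ j ∈ Finset.range (d / n), ∑ P ∈ Pm k (n * (j + 1)),
        (if P ∣ D then w (n * (j + 1)) else 0) =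
        ∑ P ∈ (Finset.range (d / n)).biUnion (fun j => (Pm k (n * (j + 1))).filter fun P => P ∣ D),
          w P.natDegree := by
      rw [Finset.sum_biUnion]
      · refine Finset.sum_congr rfl fun j _ => ?_
        rw [Finset.sum_filter]
        refine Finset.sum_congr rfl fun P hP => ?_
        rw [(mem_Pm.1 hP).2.1]
      · intro i _ j _ hij
        rw [Function.onFun, Finset.disjoint_left]
        intro P hP1 hP2
        rw [Finset.mem_filter] at hP1 hP2
        have e1 := (mem_Pm.1 hP1.1).2.1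
        have e2 := (mem_Pm.1 hP2.1).2.1
        rw [e1] at e2
        have := Nat.eq_of_mul_eq_mul_left hn e2
        omega
    rw [h2, h3]
    refine Finset.sum_le_sum_of_subset_of_nonneg ?_ fun P _ _ => hw _
    intro P hP
    rw [Finset.mem_filter] at hP
    obtain ⟨hP1, c, hc⟩ := hP
    obtain ⟨e1, e2, e3⟩ := hpf D hD P hP1
    have e4 := natDegree_le_of_dvd e3 hD'.1.ne_zero
    have e5 := e2.natDegree_pos
    have hc0 : 0 < c := by
      rcases Nat.eq_zero_or_pos c with h | h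
      · rw [h, mul_zero] at hc; omega
      · exact h
    rw [Finset.mem_biUnion]
    refine ⟨c - 1, Finset.mem_range.2 ?_, ?_⟩
    · have : c ≤ d / n := by
        rw [Nat.le_div_iff_mul_le hn, mul_comm, ← hc, ← hD'.2]
        exact e4
      omega
    · rw [Finset.mem_filter, mem_Pm]
      refine ⟨⟨e1, ?_, e2⟩, e3⟩
      rw [hc]
      congr 1
      omega
  refine (Finset.sum_le_sum h1).trans ?_
  rw [Finset.sum_comm, Finset.sum_mul]
  refine Finset.sum_le_sum fun j hj => ?_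
  rw [Finset.sum_comm]
  set m := n * (j + 1) with hm
  have hm0 : 0 < m := Nat.mul_pos hn (Nat.succ_pos j)
  have hmd : m ≤ d := by
    rw [Finset.mem_range] at hj
    calc m = (j + 1) * n := by rw [hm]; ring
      _ ≤ (d / n) * n := Nat.mul_le_mul_right _ (by omega)
      _ ≤ d := Nat.div_mul_le_self d n
  have h2 : ∀ P ∈ Pm k m, ∑ D ∈ Fam, (if P ∣ D then w m else 0) ≤
      w m * (Nat.card k : ℝ) ^ (d - m) := by
    intro P hP
    have hP' := mem_Pm.1 hP
    rw [← Finset.sum_filter, Finset.sum_const, nsmul_eq_mul, mul_comm]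
    refine mul_le_mul_of_nonneg_left ?_ (hw m)
    have h3 : (Fam.filter fun D => P ∣ D).card ≤ ((Mn k d).filter fun D => P ∣ D).card :=
      Finset.card_le_card (Finset.filter_subset_filter _ hFam)
    have h4 := h3.trans (card_mult hP'.1 (by rw [hP'.2.1]; exact hmd))
    rw [hP'.2.1] at h4
    exact_mod_cast h4
  refine (Finset.sum_le_sum h2).trans ?_
  rw [Finset.sum_const, nsmul_eq_mul]
  have h5 : ((Pm k m).card : ℝ) ≤ (Nat.card k : ℝ) ^ m / m := by
    rw [le_div_iff₀ (by exact_mod_cast hm0), mul_comm]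
    exact_mod_cast card_Pm k hm0
  have h7 : (Nat.card k : ℝ) ^ d = (Nat.card k : ℝ) ^ m * (Nat.card k : ℝ) ^ (d - m) := by
    rw [← pow_add]
    congr 1
    omega
  have hm1 : (0 : ℝ) < (m : ℕ) := by exact_mod_cast hm0
  calc ((Pm k m).card : ℝ) * (w m * (Nat.card k : ℝ) ^ (d - m)) ≤
        ((Nat.card k : ℝ) ^ m / m) * (w m * (Nat.card k : ℝ) ^ (d - m)) :=
        mul_le_mul_of_nonneg_right h5 (mul_nonneg (hw m) (by positivity))
    _ = (w m / m) * ((Nat.card k : ℝ) ^ d) := by rw [h7]; field_simp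

/-- a sum over the degrees -/
theorem geom_third {q : ℕ} (hq : 4 ≤ q) (n : ℕ) :
    ∑ m ∈ Finset.range n, (1 / (q : ℝ)) ^ (m + 1) ≤ 1 / 3 := by
  have hq' : (4 : ℝ) ≤ q := by exact_mod_cast hq
  have h1 : ∀ n : ℕ, ∑ m ∈ Finset.range n, (1 / (4 : ℝ)) ^ (m + 1) ≤ 1 / 3 * (1 - (1 / 4) ^ n) := by
    intro n
    induction n with
    | zero => simp
    | succ n ih =>
      rw [Finset.sum_range_succ]
      have : (1 / 4 : ℝ) ^ (n + 1) = (1 / 4) ^ n * (1 / 4) := pow_succ _ _
      rw [this]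
      linarith
  have h2 : ∑ m ∈ Finset.range n, (1 / (q : ℝ)) ^ (m + 1) ≤
      ∑ m ∈ Finset.range n, (1 / (4 : ℝ)) ^ (m + 1) := Finset.sum_le_sum fun m _ =>
    pow_le_pow_left₀ (by positivity) (one_div_le_one_div_of_le (by norm_num) hq') _
  have h3 : (0 : ℝ) < (1 / 4) ^ n := by positivity
  have h4 := h1 n
  linarith

variable (k) in
/-- two thirds of the polynomials are squarefree -/
theorem card_Sf' (hq : 4 ≤ Nat.card k) (d : ℕ) :
    2 / 3 * (Nat.card k : ℝ) ^ d ≤ ((Sf k d).card : ℝ) := by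
  have hq0 : (0 : ℝ) < (Nat.card k : ℝ) := by exact_mod_cast (by omega : 0 < Nat.card k)
  have h1 : (Mn k d).card ≤ (Sf k d).card +
      ∑ m ∈ Finset.range d, ∑ P ∈ Pm k (m + 1), ((Mn k d).filter fun g => P * P ∣ g).card := by
    have h2 : Mn k d ⊆ Sf k d ∪ (Finset.range d).biUnion fun m => (Pm k (m + 1)).biUnion fun P =>
        (Mn k d).filter fun g => P * P ∣ g := by
      intro g hg
      rw [Finset.mem_union]
      by_cases hs : Squarefree g
      · left
        have := mem_Mn.1 hg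
        exact mem_Sf.2 ⟨this.1, this.2, hs⟩
      · right
        have hg' := mem_Mn.1 hg
        have hg0 : g ≠ 0 := hg'.1.ne_zero
        unfold Squarefree at hs
        push Not at hs
        obtain ⟨x, hx1, hx2⟩ := hs
        have hx0 : x ≠ 0 := by
          rintro rfl
          rw [zero_mul, zero_dvd_iff] at hx1
          exact hg0 hx1
        obtain ⟨Q, hQ, hQx⟩ := WfDvdMonoid.exists_irreducible_factor hx2 hx0
        have hQn : Irreducible (normalize Q) := (associated_normalize Q).irreducible hQ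
        have hQm : (normalize Q).Monic := monic_normalize hQ.ne_zero
        have hQg : normalize Q * normalize Q ∣ g := by
          refine dvd_trans ?_ hx1
          exact mul_dvd_mul ((normalize_dvd_iff).2 hQx) ((normalize_dvd_iff).2 hQx)
        have hdeg : 0 < (normalize Q).natDegree := hQn.natDegree_pos
        have hle := natDegree_le_of_dvd hQg hg0
        rw [hQm.natDegree_mul hQm, hg'.2] at hle
        rw [Finset.mem_biUnion]
        refine ⟨(normalize Q).natDegree - 1, Finset.mem_range.2 (by omega), ?_⟩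
        rw [Finset.mem_biUnion]
        refine ⟨normalize Q, mem_Pm.2 ⟨hQm, by omega, hQn⟩, ?_⟩
        rw [Finset.mem_filter]
        exact ⟨hg, hQg⟩
    refine (Finset.card_le_card h2).trans ((Finset.card_union_le _ _).trans ?_)
    refine Nat.add_le_add_left (Finset.card_biUnion_le.trans ?_) _
    exact Finset.sum_le_sum fun m _ => Finset.card_biUnion_le
  have h3 : ∀ m ∈ Finset.range d, (∑ P ∈ Pm k (m + 1),
      (((Mn k d).filter fun g => P * P ∣ g).card : ℝ)) ≤
      (Nat.card k : ℝ) ^ d * (1 / (Nat.card k : ℝ)) ^ (m + 1) := by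
    intro m hm
    by_cases h2m : 2 * (m + 1) ≤ d
    · have h4 : ∀ P ∈ Pm k (m + 1), (((Mn k d).filter fun g => P * P ∣ g).card : ℝ) ≤
          (Nat.card k : ℝ) ^ (d - 2 * (m + 1)) := by
        intro P hP
        have hP' := mem_Pm.1 hP
        have hdd : (P * P).natDegree = 2 * (m + 1) := by
          rw [hP'.1.natDegree_mul hP'.1, hP'.2.1]; ring
        have := card_mult (hP'.1.mul hP'.1) (d := d) (by rw [hdd]; exact h2m)
        rw [hdd] at this
        exact_mod_cast this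
      refine (Finset.sum_le_sum h4).trans ?_
      rw [Finset.sum_const, nsmul_eq_mul]
      have h5 : ((Pm k (m + 1)).card : ℝ) ≤ (Nat.card k : ℝ) ^ (m + 1) := by
        have h6 := card_Pm k (Nat.succ_pos m)
        have h7 : (Pm k (m + 1)).card ≤ Nat.card k ^ (m + 1) :=
          (Nat.le_mul_of_pos_left _ (Nat.succ_pos m)).trans h6
        exact_mod_cast h7
      have h8 : (Nat.card k : ℝ) ^ d = (Nat.card k : ℝ) ^ (m + 1) * ((Nat.card k : ℝ) ^ (m + 1) *
          (Nat.card k : ℝ) ^ (d - 2 * (m + 1))) := by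
        rw [← pow_add, ← pow_add]
        congr 1
        omega
      have h9 : (Nat.card k : ℝ) ^ d * (1 / (Nat.card k : ℝ)) ^ (m + 1) =
          (Nat.card k : ℝ) ^ (m + 1) * (Nat.card k : ℝ) ^ (d - 2 * (m + 1)) := by
        rw [h8, one_div, inv_pow]
        field_simp
      rw [h9]
      exact mul_le_mul_of_nonneg_right h5 (by positivity)
    · have h4 : ∀ P ∈ Pm k (m + 1), (((Mn k d).filter fun g => P * P ∣ g).card : ℝ) = 0 := by
        intro P hP
        have hP' := mem_Pm.1 hP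
        have hdd : (P * P).natDegree = 2 * (m + 1) := by
          rw [hP'.1.natDegree_mul hP'.1, hP'.2.1]; ring
        have : ((Mn k d).filter fun g => P * P ∣ g) = ∅ := by
          rw [Finset.filter_eq_empty_iff]
          intro g hg hd
          have hg' := mem_Mn.1 hg
          have hle := natDegree_le_of_dvd hd hg'.1.ne_zero
          rw [hdd, hg'.2] at hle
          exact h2m hle
        rw [this, Finset.card_empty, Nat.cast_zero]
      rw [Finset.sum_eq_zero h4]
      positivity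
  have h4 : ((Mn k d).card : ℝ) ≤ ((Sf k d).card : ℝ) +
      ∑ m ∈ Finset.range d, ∑ P ∈ Pm k (m + 1), (((Mn k d).filter fun g => P * P ∣ g).card : ℝ) := by
    exact_mod_cast h1
  have h5 := h4.trans (add_le_add_right (Finset.sum_le_sum h3) _)
  rw [← Finset.mul_sum, card_Mn] at h5
  have h6 := geom_third hq d
  have h7 : (Nat.card k : ℝ) ^ d * ∑ m ∈ Finset.range d, (1 / (Nat.card k : ℝ)) ^ (m + 1) ≤
      (Nat.card k : ℝ) ^ d * (1 / 3) := mul_le_mul_of_nonneg_left h6 (by positivity)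
  push_cast at h5
  linarith

/-- the monic polynomials of degree `d` prime to `f`, without `ℓ`-th powers of irreducible
polynomials -/
noncomputable def Fl (ℓ : ℕ) (f : k[X]) (d : ℕ) : Finset k[X] :=
  (Mn k d).filter fun D => (∀ P : k[X], Irreducible P → ¬ P ^ ℓ ∣ D) ∧ IsCoprime D f

theorem mem_Fl {ℓ : ℕ} {f : k[X]} {d : ℕ} {D : k[X]} : D ∈ Fl ℓ f d ↔
    D.Monic ∧ D.natDegree = d ∧ (∀ P : k[X], Irreducible P → ¬ P ^ ℓ ∣ D) ∧ IsCoprime D f := by
  unfold Fl
  rw [Finset.mem_filter, mem_Mn, and_assoc]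

theorem Fl_subset {ℓ : ℕ} {f : k[X]} {d : ℕ} : Fl ℓ f d ⊆ Mn k d := Finset.filter_subset _ _

/-- at least half of the polynomials are in the family -/
theorem card_Fl {ℓ : ℕ} (hℓ : 2 ≤ ℓ) (hq : 4 ≤ Nat.card k) {f : k[X]} (hfm : f.Monic)
    (hfi : Irreducible f) (hn : 2 ≤ f.natDegree) (d : ℕ) :
    (Nat.card k : ℝ) ^ d / 2 ≤ ((Fl ℓ f d).card : ℝ) := by
  have hq0 : (4 : ℝ) ≤ (Nat.card k : ℝ) := by exact_mod_cast hq
  have hpos : (0 : ℝ) < (Nat.card k : ℝ) ^ d := by positivity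
  have h1 : Sf k d ⊆ Fl ℓ f d ∪ (Mn k d).filter fun g => f ∣ g := by
    intro D hD
    have hD' := mem_Sf.1 hD
    rw [Finset.mem_union]
    by_cases hfD : f ∣ D
    · right
      rw [Finset.mem_filter, mem_Mn]
      exact ⟨⟨hD'.1, hD'.2.1⟩, hfD⟩
    · left
      rw [mem_Fl]
      refine ⟨hD'.1, hD'.2.1, fun P hP hPD => ?_, ?_⟩
      · refine hP.not_isUnit (hD'.2.2 P ?_)
        refine dvd_trans ?_ hPD
        rw [← pow_two]
        exact pow_dvd_pow P hℓ
      · exact ((hfi.coprime_iff_not_dvd).2 hfD).symm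
  have h2 := (Finset.card_le_card h1).trans (Finset.card_union_le _ _)
  have h3 : (((Mn k d).filter fun g => f ∣ g).card : ℝ) ≤ 1 / 16 * (Nat.card k : ℝ) ^ d := by
    rcases Nat.lt_or_ge d f.natDegree with h | h
    · have : ((Mn k d).filter fun g => f ∣ g) = ∅ := by
        rw [Finset.filter_eq_empty_iff]
        intro g hg hd
        have hg' := mem_Mn.1 hg
        have hle := natDegree_le_of_dvd hd hg'.1.ne_zero
        omega
      rw [this, Finset.card_empty, Nat.cast_zero]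
      positivity
    · have h4 : (((Mn k d).filter fun g => f ∣ g).card : ℝ) ≤
          (Nat.card k : ℝ) ^ (d - f.natDegree) := by exact_mod_cast card_mult hfm h
      refine h4.trans ?_
      have h5 : (Nat.card k : ℝ) ^ d = (Nat.card k : ℝ) ^ f.natDegree *
          (Nat.card k : ℝ) ^ (d - f.natDegree) := by
        rw [← pow_add]
        congr 1
        omega
      have h6 : (16 : ℝ) ≤ (Nat.card k : ℝ) ^ f.natDegree := by
        calc (16 : ℝ) = 4 ^ 2 := by norm_num
          _ ≤ (Nat.card k : ℝ) ^ 2 := pow_le_pow_left₀ (by norm_num) hq0 2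
          _ ≤ _ := pow_le_pow_right₀ (by linarith) hn
      rw [h5]
      have h7 : (0 : ℝ) < (Nat.card k : ℝ) ^ (d - f.natDegree) := by positivity
      nlinarith
  have h4 := card_Sf' k hq d
  have h5 : ((Sf k d).card : ℝ) ≤ ((Fl ℓ f d).card : ℝ) +
      (((Mn k d).filter fun g => f ∣ g).card : ℝ) := by exact_mod_cast h2
  linarith

/-- the greatest power of `ℓ` dividing `n` -/
def lp (ℓ n : ℕ) : ℕ := ℓ ^ padicValNat ℓ n

theorem lp_mul {ℓ : ℕ} (hℓ : ℓ.Prime) {n m : ℕ} (hn : ¬ ℓ ∣ n) (hm : 0 < m) :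
    lp ℓ (n * m) = lp ℓ m := by
  have : Fact ℓ.Prime := ⟨hℓ⟩
  have hn0 : n ≠ 0 := by
    rintro rfl
    exact hn (dvd_zero _)
  unfold lp
  rw [padicValNat.mul hn0 hm.ne', padicValNat.eq_zero_of_not_dvd hn, zero_add]

theorem lp_not {ℓ n : ℕ} (h : ¬ ℓ ∣ n) : lp ℓ n = 1 := by
  unfold lp
  rw [padicValNat.eq_zero_of_not_dvd h, pow_zero]

theorem lp_self {ℓ : ℕ} (hℓ : ℓ.Prime) {n : ℕ} (h : 0 < n) : lp ℓ (ℓ * n) = ℓ * lp ℓ n := by
  have : Fact ℓ.Prime := ⟨hℓ⟩
  unfold lp
  rw [padicValNat.mul hℓ.ne_zero h.ne', padicValNat_self, pow_add, pow_one]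

/-- the harmonic sum with the powers of `ℓ` -/
noncomputable def SL (ℓ t : ℕ) : ℝ := ∑ j ∈ range t, (lp ℓ (j + 1) : ℝ) / ((j + 1 : ℕ) : ℝ)

theorem SL_nonneg (ℓ t : ℕ) : 0 ≤ SL ℓ t := Finset.sum_nonneg fun j _ => by positivity

theorem SL_step {ℓ : ℕ} (hℓ : ℓ.Prime) (t : ℕ) : SL ℓ t ≤ S1 t + SL ℓ (t / ℓ) := by
  unfold SL S1
  rw [← Finset.sum_filter_add_sum_filter_not (range t) (fun j => ¬ ℓ ∣ j + 1)]
  refine add_le_add ?_ ?_
  · have h1 : ∑ j ∈ (range t).filter (fun j => ¬ ℓ ∣ j + 1), (lp ℓ (j + 1) : ℝ) / ((j + 1 : ℕ) : ℝ) =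
        ∑ j ∈ (range t).filter (fun j => ¬ ℓ ∣ j + 1), 1 / ((j + 1 : ℕ) : ℝ) := by
      refine Finset.sum_congr rfl fun j hj => ?_
      rw [mem_filter] at hj
      rw [lp_not hj.2, Nat.cast_one]
    rw [h1]
    exact Finset.sum_le_sum_of_subset_of_nonneg (Finset.filter_subset _ _)
      fun j _ _ => by positivity
  · have h2 : (range t).filter (fun j => ¬ ¬ ℓ ∣ j + 1) ⊆
        (range (t / ℓ)).image fun i => ℓ * (i + 1) - 1 := by
      intro j hj
      rw [mem_filter, mem_range, not_not] at hj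
      obtain ⟨h1, c, hc⟩ := hj
      have hc0 : 0 < c := by
        rcases Nat.eq_zero_or_pos c with h | h
        · rw [h, mul_zero] at hc; omega
        · exact h
      rw [mem_image]
      refine ⟨c - 1, mem_range.2 ?_, ?_⟩
      · have : c ≤ t / ℓ := by
          rw [Nat.le_div_iff_mul_le hℓ.pos, mul_comm, ← hc]
          omega
        omega
      · have : c - 1 + 1 = c := by omega
        rw [this, ← hc]
        omega
    have hinj : ∀ a ∈ range (t / ℓ), ∀ b ∈ range (t / ℓ),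
        ℓ * (a + 1) - 1 = ℓ * (b + 1) - 1 → a = b := by
      intro a _ b _ h
      have ha : 0 < ℓ * (a + 1) := Nat.mul_pos hℓ.pos (Nat.succ_pos a)
      have hb : 0 < ℓ * (b + 1) := Nat.mul_pos hℓ.pos (Nat.succ_pos b)
      have h' : ℓ * (a + 1) = ℓ * (b + 1) := by omega
      have := Nat.eq_of_mul_eq_mul_left hℓ.pos h'
      omega
    refine (Finset.sum_le_sum_of_subset_of_nonneg h2 fun j _ _ => by positivity).trans ?_
    rw [Finset.sum_image hinj]
    refine Finset.sum_le_sum fun i _ => le_of_eq ?_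
    have hpos : 0 < ℓ * (i + 1) := Nat.mul_pos hℓ.pos (Nat.succ_pos i)
    have e : ℓ * (i + 1) - 1 + 1 = ℓ * (i + 1) := by omega
    rw [e, lp_self hℓ (Nat.succ_pos i)]
    push_cast
    have : (i : ℝ) + 1 ≠ 0 := by positivity
    have hℓ0 : (ℓ : ℝ) ≠ 0 := by exact_mod_cast hℓ.ne_zero
    field_simp

theorem SL_le {ℓ : ℕ} (hℓ : ℓ.Prime) (t : ℕ) : SL ℓ t ≤ (1 + Nat.log ℓ t) * (1 + Real.log t) := by
  induction t using Nat.strong_induction_on with
  | _ t ih =>
    rcases Nat.lt_or_ge t ℓ with h | h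
    · have h1 := SL_step hℓ t
      rw [Nat.div_eq_of_lt h] at h1
      have h2 : SL ℓ 0 = 0 := by
        unfold SL
        simp
      rw [h2, add_zero] at h1
      have h3 := Pool.Agent.U695.LG.S1_le t
      have h4 : (0 : ℝ) ≤ Nat.log ℓ t := Nat.cast_nonneg _
      have h5 : 0 ≤ Real.log t := Real.log_natCast_nonneg t
      nlinarith
    · have h1 := ih (t / ℓ) (Nat.div_lt_self (lt_of_lt_of_le hℓ.pos h) hℓ.one_lt)
      have h2 := SL_step hℓ t
      have h3 := Pool.Agent.U695.LG.S1_le t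
      have h4 : Nat.log ℓ t = Nat.log ℓ (t / ℓ) + 1 := by
        rw [Nat.log_div_base]
        have : 0 < Nat.log ℓ t := Nat.log_pos hℓ.one_lt h
        omega
      have h5 : Real.log ((t / ℓ : ℕ) : ℝ) ≤ Real.log t := by
        apply Real.log_le_log
        · have : 0 < t / ℓ := Nat.div_pos h hℓ.pos
          exact_mod_cast this
        · exact_mod_cast Nat.div_le_self t ℓ
      have h6 : 0 ≤ Real.log ((t / ℓ : ℕ) : ℝ) := Real.log_natCast_nonneg _
      have h7 : (0 : ℝ) ≤ Nat.log ℓ (t / ℓ) := Nat.cast_nonneg _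
      rw [h4]
      push_cast
      push_cast at h1 h5 h6
      nlinarith

/-- the average of the bound -/
theorem mean_bound {ℓ : ℕ} (hℓ : ℓ.Prime) (hq : 4 ≤ Nat.card k) {f : k[X]} (hfm : f.Monic)
    (hfi : Irreducible f) (hn2 : 2 ≤ f.natDegree) (hnℓ : ¬ ℓ ∣ f.natDegree)
    (d : ℕ) (pf : k[X] → Finset k[X])
    (hpf : ∀ D ∈ Fl ℓ f d, ∀ P ∈ pf D, P.Monic ∧ Irreducible P ∧ P ∣ D) :
    ∑ D ∈ Fl ℓ f d,
      ((1 + ∑ P ∈ pf D, (Nat.gcd P.natDegree f.natDegree - 1) * lp ℓ P.natDegree : ℕ) : ℝ) ≤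
      (1 + 2 * ∑ e ∈ f.natDegree.divisors.erase 1, (Nat.totient e : ℝ) / e * SL ℓ (d / e)) *
        ((Fl ℓ f d).card : ℝ) := by
  set n := f.natDegree with hnd
  have hn0 : 0 < n := by omega
  set w : ℕ → ℕ → ℝ := fun e m => (if e ∣ m then (Nat.totient e : ℝ) else 0) * lp ℓ m with hw
  have h1 : ∀ D ∈ Fl ℓ f d,
      ((1 + ∑ P ∈ pf D, (Nat.gcd P.natDegree n - 1) * lp ℓ P.natDegree : ℕ) : ℝ) =
      1 + ∑ e ∈ n.divisors.erase 1, ∑ P ∈ pf D, w e P.natDegree := by
    intro D _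
    rw [Finset.sum_comm]
    push_cast [Nat.cast_add, Nat.cast_one, Nat.cast_sum, Nat.cast_mul]
    congr 1
    refine Finset.sum_congr rfl fun P _ => ?_
    rw [gcd_sub_one hn0, Finset.sum_mul]
  rw [Finset.sum_congr rfl h1, Finset.sum_add_distrib, Finset.sum_const, nsmul_eq_mul, mul_one,
    Finset.sum_comm, add_mul, one_mul]
  refine add_le_add le_rfl ?_
  rw [Finset.mul_sum, Finset.sum_mul]
  refine Finset.sum_le_sum fun e he => ?_
  rw [Finset.mem_erase, Nat.mem_divisors] at he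
  have he0 : 0 < e := Nat.pos_of_dvd_of_pos he.2.1 hn0
  have heo : ¬ ℓ ∣ e := fun h => hnℓ (h.trans he.2.1)
  have h2 := mean_gen he0 d (w e) (fun m => by
      rw [hw]
      simp only
      split_ifs <;> positivity) (fun m hm => by
      rw [hw]
      simp only
      rw [if_neg hm, zero_mul]) (Fl ℓ f d) Fl_subset pf hpf
  have h3 := card_Fl (ℓ := ℓ) hℓ.two_le hq hfm hfi hn2 d
  have h4 : ∑ j ∈ Finset.range (d / e), w e (e * (j + 1)) / (e * (j + 1) : ℕ) =
      (Nat.totient e : ℝ) / e * SL ℓ (d / e) := by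
    unfold SL
    rw [Finset.mul_sum]
    refine Finset.sum_congr rfl fun j _ => ?_
    rw [hw]
    simp only
    rw [if_pos (dvd_mul_right _ _), lp_mul hℓ heo (Nat.succ_pos j)]
    push_cast
    have h3 : (e : ℝ) ≠ 0 := by exact_mod_cast he0.ne'
    have h4 : (j : ℝ) + 1 ≠ 0 := by positivity
    field_simp
  rw [h4] at h2
  have h5 : 0 ≤ (Nat.totient e : ℝ) / e * SL ℓ (d / e) :=
    mul_nonneg (by positivity) (SL_nonneg _ _)
  refine h2.trans ?_
  nlinarith

/-- the proportion of the exceptions -/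
theorem few_bad {ℓ : ℕ} (hℓ : ℓ.Prime) (hq : 4 ≤ Nat.card k) {f : k[X]} (hfm : f.Monic)
    (hfi : Irreducible f) (hn2 : 2 ≤ f.natDegree)
    (d : ℕ) (pf : k[X] → Finset k[X])
    (hpf : ∀ D ∈ Fl ℓ f d, ∀ P ∈ pf D, P.Monic ∧ Irreducible P ∧ P ∣ D) :
    (((Fl ℓ f d).filter fun D =>
      2 ≤ 1 + ∑ P ∈ pf D, (Nat.gcd P.natDegree f.natDegree - 1) * lp ℓ P.natDegree).card : ℝ) ≤
      (2 * ∑ p ∈ f.natDegree.primeFactors, 1 / (p : ℝ) * S1 (d / p)) *
        ((Fl ℓ f d).card : ℝ) := by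
  set n := f.natDegree with hnd
  have hn0 : 0 < n := by omega
  set w : ℕ → ℕ → ℝ := fun e m => if e ∣ m then 1 else 0 with hw
  have h1 : ∀ D ∈ Fl ℓ f d,
      (if 2 ≤ 1 + ∑ P ∈ pf D, (Nat.gcd P.natDegree n - 1) * lp ℓ P.natDegree
      then (1 : ℝ) else 0) ≤ ∑ p ∈ n.primeFactors, ∑ P ∈ pf D, w p P.natDegree := by
    intro D _
    have hnn : ∀ p P, 0 ≤ w p P := fun p P => by
      rw [hw]
      simp only
      split_ifs <;> norm_num
    split_ifs with h
    · have h2 : ∃ P ∈ pf D, Nat.gcd P.natDegree n ≠ 1 := by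
        by_contra hno
        push Not at hno
        rw [Finset.sum_eq_zero fun P hP => by rw [hno P hP, Nat.sub_self, zero_mul]] at h
        omega
      obtain ⟨P, hP, hg⟩ := h2
      obtain ⟨p, hp, hpg⟩ := Nat.exists_prime_and_dvd hg
      have hpn : p ∈ n.primeFactors :=
        Nat.mem_primeFactors.2 ⟨hp, hpg.trans (Nat.gcd_dvd_right _ _), hn0.ne'⟩
      have h3 : (1 : ℝ) = w p P.natDegree := by
        rw [hw]
        simp only
        rw [if_pos (hpg.trans (Nat.gcd_dvd_left _ _))]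
      calc (1 : ℝ) = w p P.natDegree := h3
        _ ≤ ∑ P ∈ pf D, w p P.natDegree :=
            Finset.single_le_sum (f := fun P => w p P.natDegree) (fun P _ => hnn _ _) hP
        _ ≤ _ := Finset.single_le_sum (f := fun p => ∑ P ∈ pf D, w p P.natDegree)
            (fun p _ => Finset.sum_nonneg fun P _ => hnn _ _) hpn
    · exact Finset.sum_nonneg fun p _ => Finset.sum_nonneg fun P _ => hnn _ _
  have h2 := Finset.sum_le_sum h1
  rw [← Finset.sum_filter, Finset.sum_const, nsmul_eq_mul, mul_one] at h2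
  refine h2.trans ?_
  rw [Finset.sum_comm, Finset.mul_sum, Finset.sum_mul]
  refine Finset.sum_le_sum fun p hp => ?_
  have hp0 : 0 < p := (Nat.prime_of_mem_primeFactors hp).pos
  have h3 := mean_gen hp0 d (w p) (fun m => by
      rw [hw]
      simp only
      split_ifs <;> norm_num) (fun m hm => by
      rw [hw]
      simp only
      rw [if_neg hm]) (Fl ℓ f d) Fl_subset pf hpf
  have h5 := card_Fl (ℓ := ℓ) hℓ.two_le hq hfm hfi hn2 d
  have h4 : ∑ j ∈ Finset.range (d / p), w p (p * (j + 1)) / (p * (j + 1) : ℕ) =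
      1 / (p : ℝ) * S1 (d / p) := by
    unfold S1
    rw [Finset.mul_sum]
    refine Finset.sum_congr rfl fun j _ => ?_
    rw [hw]
    simp only
    rw [if_pos (dvd_mul_right _ _)]
    push_cast
    have h3 : (p : ℝ) ≠ 0 := by exact_mod_cast hp0.ne'
    have h4 : (j : ℝ) + 1 ≠ 0 := by positivity
    field_simp
  rw [h4] at h3
  have h6 : 0 ≤ 1 / (p : ℝ) * S1 (d / p) :=
    mul_nonneg (by positivity) (Pool.Agent.U695.LG.S1_nonneg _)
  refine h3.trans ?_
  nlinarith

end Pool.Agent.U695.SL
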