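import Pool.Agent.U695.SL.Ord

/-!
# The components for the different characters, and the number of vanishing twists
-/

set_option autoImplicit false
set_option maxHeartbeats 1000000

namespace Pool.Agent.U695.SL

open Polynomial
open Pool.Agent.W313.Hyp Pool.Agent.W343.BSD
open Pool.Agent.TH639.SE (LL cA cB)

section emb

/-- the embedding of `ℤ[x] / Φ_ℓ(x)` given by a primitive root of unity -/
noncomputable def emb {ℓ : ℕ} (hℓ : 0 < ℓ) {ζ : ℂ} (hζ : IsPrimitiveRoot ζ ℓ) :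
    AdjoinRoot (cyclotomic ℓ ℤ) →+* ℂ :=
  AdjoinRoot.lift (Int.castRingHom ℂ) ζ (by
    rw [← eval_map, map_cyclotomic]
    exact hζ.isRoot_cyclotomic hℓ)

theorem emb_root {ℓ : ℕ} (hℓ : 0 < ℓ) {ζ : ℂ} (hζ : IsPrimitiveRoot ζ ℓ) :
    emb hℓ hζ (AdjoinRoot.root (cyclotomic ℓ ℤ)) = ζ := AdjoinRoot.lift_root _

theorem emb_injective {ℓ : ℕ} (hℓ : 0 < ℓ) {ζ : ℂ} (hζ : IsPrimitiveRoot ζ ℓ) :
    Function.Injective (emb hℓ hζ) := by
  rw [injective_iff_map_eq_zero]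
  intro x hx
  obtain ⟨p, rfl⟩ := AdjoinRoot.mk_surjective x
  unfold emb at hx
  rw [AdjoinRoot.lift_mk] at hx
  rw [AdjoinRoot.mk_eq_zero, cyclotomic_eq_minpoly hζ hℓ]
  exact minpoly.isIntegrallyClosed_dvd (hζ.isIntegral hℓ) hx

/-- a version of `exists_lift` for a ring homomorphism -/
theorem exists_lift' {K R : Type} [Field K] [CommRing R] (φ : R →+* K)
    (hinj : Function.Injective φ) {L : PowerSeries R} {U : R[X]}
    (hU : U.coeff 0 = 1) {G : K[X]}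
    (h : PowerSeries.map φ L = ((U.map φ * G : K[X]) : PowerSeries K)) :
    ∃ G' : R[X], L = ((U * G' : R[X]) : PowerSeries R) := by
  let _ := φ.toAlgebra
  exact exists_lift (R := R) (K := K) hinj hU h

end emb

section vx

variable {k : Type} [Field k]

/-- the component vanishes to order at least `m` at `s = 1` -/
def VX (ℓ : ℕ) (w : k) (ζ : ℂ) (f h D : k[X]) (m : ℕ) : Prop :=
  ∃ G : ℂ[X], LX ℓ w ζ f h D =
    (((1 - C (Nat.card k : ℂ) * X) ^ m * G : ℂ[X]) : PowerSeries ℂ)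

theorem pow_coeff {R : Type} [CommRing R] (q : R) (m : ℕ) :
    ((1 - C q * X : R[X]) ^ m).coeff 0 = 1 := by
  rw [coeff_zero_eq_eval_zero]
  simp

theorem map_pow_lin {R S : Type} [CommRing R] [CommRing S] (φ : R →+* S) (q m : ℕ) :
    ((1 - C (q : R) * X : R[X]) ^ m).map φ = (1 - C (q : S) * X) ^ m := by
  simp

theorem vx_iff [Finite k] {ℓ : ℕ} (hℓ : 0 < ℓ) {ζ : ℂ} (hζ : IsPrimitiveRoot ζ ℓ) (w : k)
    (f h D : k[X]) (m : ℕ) : VX ℓ w ζ f h D m ↔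
      ∃ G : (AdjoinRoot (cyclotomic ℓ ℤ))[X],
        LX ℓ w (AdjoinRoot.root (cyclotomic ℓ ℤ)) f h D =
          (((1 - C ((Nat.card k : ℕ) : AdjoinRoot (cyclotomic ℓ ℤ)) * X) ^ m * G :
            (AdjoinRoot (cyclotomic ℓ ℤ))[X]) : PowerSeries (AdjoinRoot (cyclotomic ℓ ℤ))) := by
  constructor
  · rintro ⟨G, hG⟩
    refine exists_lift' (emb hℓ hζ) (emb_injective hℓ hζ) (pow_coeff _ m) (G := G) ?_
    rw [map_LX, emb_root, hG, map_pow_lin]
  · rintro ⟨G, hG⟩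
    refine ⟨G.map (emb hℓ hζ), ?_⟩
    have h1 := congrArg (PowerSeries.map (emb hℓ hζ)) hG
    rw [map_LX, emb_root] at h1
    rw [h1, ← map_pow_lin (emb hℓ hζ), ← Polynomial.map_mul]
    ext n
    rw [PowerSeries.coeff_map, Polynomial.coeff_coe, Polynomial.coeff_coe, coeff_map]

/-- **the order of vanishing does not depend on the character** -/
theorem vx_indep [Finite k] {ℓ : ℕ} (hℓ : 0 < ℓ) {ζ ζ' : ℂ} (hζ : IsPrimitiveRoot ζ ℓ)
    (hζ' : IsPrimitiveRoot ζ' ℓ) (w : k) (f h D : k[X]) (m : ℕ) :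
    VX ℓ w ζ f h D m ↔ VX ℓ w ζ' f h D m :=
  (vx_iff hℓ hζ w f h D m).trans (vx_iff hℓ hζ' w f h D m).symm

theorem vx_mono {ℓ : ℕ} {w : k} {ζ : ℂ} {f h D : k[X]} {m m' : ℕ} (hm : m' ≤ m)
    (hv : VX ℓ w ζ f h D m) : VX ℓ w ζ f h D m' := by
  obtain ⟨G, hG⟩ := hv
  refine ⟨(1 - C (Nat.card k : ℂ) * X) ^ (m - m') * G, ?_⟩
  rw [hG, ← mul_assoc, ← pow_add, Nat.add_sub_cancel' hm]

theorem rescale_coe {K : Type} [CommRing K] (a : K) (P : K[X]) :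
    PowerSeries.rescale a (P : PowerSeries K) = ((P.comp (C a * X) : K[X]) : PowerSeries K) := by
  ext n
  rw [PowerSeries.coeff_rescale, Polynomial.coeff_coe, Polynomial.coeff_coe, comp_C_mul_X_coeff,
    mul_comm]

/-- if the component of one constant twist is a polynomial then so are those of the others -/
theorem vx_zero_all [Finite k] {ℓ : ℕ} (hℓ : ℓ.Prime) (hq : ℓ ∣ Nat.card k - 1) {e : k}
    (he : ∀ v : k, v ^ ℓ ≠ e) {ζ : ℂ} (hζ : IsPrimitiveRoot ζ ℓ) {f h D : k[X]} {i : ℕ}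
    (hi : i < ℓ) (hv : VX ℓ (e ^ ((Nat.card k - 1) / ℓ)) ζ f h (C (e ^ i) * D) 0) (j : ℕ) :
    VX ℓ (e ^ ((Nat.card k - 1) / ℓ)) ζ f h (C (e ^ j) * D) 0 := by
  obtain ⟨P, hP⟩ := hv
  rw [pow_zero, one_mul, LX_twist hℓ hq he hζ.pow_eq_one] at hP
  have h1 : LX ℓ (e ^ ((Nat.card k - 1) / ℓ)) ζ f h D =
      PowerSeries.rescale (ζ ^ (ℓ - i)) (P : PowerSeries ℂ) := by
    rw [← hP, PowerSeries.rescale_rescale, ← pow_add, Nat.add_sub_cancel' hi.le, hζ.pow_eq_one,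
      PowerSeries.rescale_one]
    rfl
  refine ⟨(P.comp (C (ζ ^ (ℓ - i)) * X)).comp (C (ζ ^ j) * X), ?_⟩
  rw [pow_zero, one_mul, LX_twist hℓ hq he hζ.pow_eq_one, h1, rescale_coe, rescale_coe]

open Classical in
/-- the number of the constant twists whose component vanishes at `s = 1` -/
theorem card_vanishing [Finite k] {ℓ : ℕ} (hℓ : ℓ.Prime) (hq : ℓ ∣ Nat.card k - 1) {e : k}
    (he : ∀ v : k, v ^ ℓ ≠ e) {ζ : ℂ} (hζ : IsPrimitiveRoot ζ ℓ) {f h D : k[X]}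
    (hf : f ≠ 0) (hfh : f.comp h ≠ 0) (hh : h ≠ 0) (hD : D ≠ 0)
    (hne : ((Finset.range ℓ).filter fun j =>
      VX ℓ (e ^ ((Nat.card k - 1) / ℓ)) ζ f h (C (e ^ j) * D) 1).Nonempty) :
    ((Finset.range ℓ).filter fun j =>
      VX ℓ (e ^ ((Nat.card k - 1) / ℓ)) ζ f h (C (e ^ j) * D) 1).card + cA ℓ f h D ≤
        cB ℓ f h D := by
  obtain ⟨i, hi⟩ := hne
  rw [Finset.mem_filter, Finset.mem_range] at hi
  have h0 := vx_zero_all hℓ hq he hζ hi.1 (vx_mono (Nat.zero_le 1) hi.2)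
  have h1 := order_bound hℓ hq he hζ hf hfh hh hD
    (fun j => if VX ℓ (e ^ ((Nat.card k - 1) / ℓ)) ζ f h (C (e ^ j) * D) 1 then 1 else 0)
    (fun j _ => by
      split_ifs with hj
      · exact hj
      · exact h0 j)
  rw [Finset.card_filter]
  exact h1

/-- **the order of vanishing of the whole `L`-function** -/
theorem whole_order [Finite k] {ℓ : ℕ} (hℓ : ℓ.Prime) (hq : ℓ ∣ Nat.card k - 1) {w : k}
    (hw : IsPrimitiveRoot w ℓ) {ζ : ℂ} (hζ : IsPrimitiveRoot ζ ℓ) {f h D : k[X]}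
    (h0 : VX ℓ w ζ f h D 0) (r : ℕ) :
    (∃ G : ℤ[X], LL ℓ f h D = (((1 - C (Nat.card k : ℤ) * X) ^ r * G : ℤ[X]) : PowerSeries ℤ)) ↔
      ∃ m : ℕ, r ≤ (ℓ - 1) * m ∧ VX ℓ w ζ f h D m := by
  have hpos := hℓ.pos
  have hprod := LX_prod hℓ hq hw hζ f h D
  have hZ : ∀ p : ℤ[X], PowerSeries.map (Int.castRingHom ℂ) (p : PowerSeries ℤ) =
      ((p.map (Int.castRingHom ℂ) : ℂ[X]) : PowerSeries ℂ) := by
    intro p
    ext n
    rw [Polynomial.coeff_coe, PowerSeries.coeff_map, Polynomial.coeff_coe, coeff_map]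
  have hcard : (primitiveRoots ℓ ℂ).card = ℓ - 1 := by
    rw [hζ.card_primitiveRoots, Nat.totient_prime hℓ]
  have hC0 : ((Nat.card k : ℕ) : ℂ) ≠ 0 := by
    have : Nat.card k ≠ 0 := Nat.card_pos.ne'
    exact_mod_cast this
  have hall : ∀ ζ' ∈ primitiveRoots ℓ ℂ, ∀ m, VX ℓ w ζ' f h D m ↔ VX ℓ w ζ f h D m :=
    fun ζ' h' m => vx_indep hpos ((mem_primitiveRoots hpos).1 h') hζ w f h D m
  constructor
  · rintro ⟨G, hG⟩
    have hP : ∀ ζ' ∈ primitiveRoots ℓ ℂ, ∃ P : ℂ[X], LX ℓ w ζ' f h D = (P : PowerSeries ℂ) := by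
      intro ζ' h'
      obtain ⟨P, hP⟩ := (hall ζ' h' 0).2 h0
      rw [pow_zero, one_mul] at hP
      exact ⟨P, hP⟩
    choose! P hP using hP
    have hpr : Prime (1 - C (Nat.card k : ℂ) * X : ℂ[X]) := by
      have h1 : Irreducible (C (-(Nat.card k : ℂ)) * X + C 1) :=
        irreducible_C_mul_X_add_C (neg_ne_zero.2 hC0) isRelPrime_one_right
      have h2 : (1 - C (Nat.card k : ℂ) * X : ℂ[X]) = C (-(Nat.card k : ℂ)) * X + C 1 := by
        rw [C_neg, C_1]; ring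
      rw [h2]
      exact h1.prime
    have hvx : ∀ ζ' ∈ primitiveRoots ℓ ℂ, ∀ m, VX ℓ w ζ' f h D m ↔
        (1 - C (Nat.card k : ℂ) * X : ℂ[X]) ^ m ∣ P ζ' := by
      intro ζ' h' m
      constructor
      · rintro ⟨G', hG'⟩
        rw [hP ζ' h'] at hG'
        exact ⟨G', Polynomial.coe_injective ℂ hG'⟩
      · rintro ⟨G', hG'⟩
        exact ⟨G', by rw [hP ζ' h', hG']⟩
    have h1 : (1 - C (Nat.card k : ℂ) * X : ℂ[X]) ^ r ∣ ∏ ζ' ∈ primitiveRoots ℓ ℂ, P ζ' := by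
      refine ⟨G.map (Int.castRingHom ℂ), ?_⟩
      apply Polynomial.coe_injective ℂ
      have h2 : ((∏ ζ' ∈ primitiveRoots ℓ ℂ, P ζ' : ℂ[X]) : PowerSeries ℂ) =
          ∏ ζ' ∈ primitiveRoots ℓ ℂ, LX ℓ w ζ' f h D := by
        rw [← Polynomial.coeToPowerSeries.ringHom_apply, map_prod]
        exact Finset.prod_congr rfl fun ζ' h' => (hP ζ' h').symm
      rw [h2, hprod, hG, hZ, Polynomial.map_mul, ← map_pow_lin (Int.castRingHom ℂ)]
    rw [pow_dvd_iff_le_emultiplicity, Finset.emultiplicity_prod hpr] at h1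
    have hζm := (mem_primitiveRoots hpos).2 hζ
    have h2 : ∀ ζ' ∈ primitiveRoots ℓ ℂ,
        emultiplicity (1 - C (Nat.card k : ℂ) * X : ℂ[X]) (P ζ') =
        emultiplicity (1 - C (Nat.card k : ℂ) * X : ℂ[X]) (P ζ) := by
      intro ζ' h'
      apply ENat.eq_of_forall_natCast_le_iff
      intro m
      rw [← pow_dvd_iff_le_emultiplicity, ← pow_dvd_iff_le_emultiplicity, ← hvx ζ' h',
        ← hvx ζ hζm]
      exact hall ζ' h' m
    rw [Finset.sum_congr rfl h2, Finset.sum_const, hcard, nsmul_eq_mul] at h1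
    rcases eq_or_ne (emultiplicity (1 - C (Nat.card k : ℂ) * X : ℂ[X]) (P ζ)) ⊤ with h3 | h3
    · refine ⟨r, Nat.le_mul_of_pos_left _ (by have := hℓ.two_le; omega), ?_⟩
      rw [hvx ζ hζm, pow_dvd_iff_le_emultiplicity, h3]
      exact le_top
    · obtain ⟨m, hm⟩ := ENat.ne_top_iff_exists.1 h3
      refine ⟨m, ?_, ?_⟩
      · rw [← hm] at h1
        exact_mod_cast h1
      · rw [hvx ζ hζm, pow_dvd_iff_le_emultiplicity, hm]
  · rintro ⟨m, hrm, hm⟩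
    have hG : ∀ ζ' ∈ primitiveRoots ℓ ℂ, ∃ G : ℂ[X], LX ℓ w ζ' f h D =
        (((1 - C (Nat.card k : ℂ) * X) ^ m * G : ℂ[X]) : PowerSeries ℂ) :=
      fun ζ' h' => (hall ζ' h' m).2 hm
    choose! G hG using hG
    refine exists_lift' (Int.castRingHom ℂ) (RingHom.injective_int _) (pow_coeff _ r)
      (G := (1 - C (Nat.card k : ℂ) * X) ^ ((ℓ - 1) * m - r) *
        ∏ ζ' ∈ primitiveRoots ℓ ℂ, G ζ') ?_
    rw [← hprod, Finset.prod_congr rfl hG]
    have h4 : ((1 - C (Nat.card k : ℤ) * X : ℤ[X]) ^ r).map (Int.castRingHom ℂ) =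
        (1 - C (Nat.card k : ℂ) * X) ^ r := by simp
    rw [h4, ← mul_assoc, ← pow_add, Nat.add_sub_cancel' hrm]
    have h5 : ∏ ζ' ∈ primitiveRoots ℓ ℂ,
        (((1 - C (Nat.card k : ℂ) * X) ^ m * G ζ' : ℂ[X]) : PowerSeries ℂ) =
        ((∏ ζ' ∈ primitiveRoots ℓ ℂ, ((1 - C (Nat.card k : ℂ) * X) ^ m * G ζ') : ℂ[X]) :
          PowerSeries ℂ) := by
      rw [← Polynomial.coeToPowerSeries.ringHom_apply
        (φ := ∏ ζ' ∈ primitiveRoots ℓ ℂ, ((1 - C (Nat.card k : ℂ) * X) ^ m * G ζ')), map_prod]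
      rfl
    rw [h5, Finset.prod_mul_distrib, Finset.prod_const, hcard, ← pow_mul, mul_comm m]

end vx

end Pool.Agent.U695.SL
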