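import Pool.Agent.U695.SL.Loc

/-!
# The components of the `L`-function of a superelliptic Jacobian over `k(t)`
-/

set_option autoImplicit false
set_option maxHeartbeats 1000000

open PowerSeries

namespace Pool.Agent.U695.SL

open Pool.Agent.W313.Hyp Pool.Agent.W343.BSD
open Pool.Agent.TH943.HJ (RF finRF fd1 fd2 finrank_RF finrank_two)
open Pool.Agent.TH943.LP (tw)
open Pool.Agent.TH639.SE (lf red LF locL infT LL planeE tw_scalar hiff lf_mod eulerProd_pow)

section euler

theorem eulerProd_comp' {ι κ R : Type} [CommRing R] (e : ι ≃ κ) (d : κ → ℕ)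
    (f : κ → PowerSeries R) : eulerProd d f = eulerProd (fun i => d (e i)) (fun i => f (e i)) := by
  unfold eulerProd
  ext n
  rw [PowerSeries.coeff_mk, PowerSeries.coeff_mk]
  congr 1
  exact (finprod_comp_equiv e (f := fun z : κ => ∏ᶠ (_ : d z ≤ n), f z)).symm

theorem rescale_eulerProd {ι R : Type} [CommRing R] {d : ι → ℕ} (hfin : ∀ n, {i | d i ≤ n}.Finite)
    (f : ι → PowerSeries R) (a : R) :
    rescale a (eulerProd d f) = eulerProd d (fun i => rescale a (f i)) := by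
  ext n
  rw [coeff_rescale, coeff_eulerProd hfin, coeff_eulerProd hfin, ← map_prod, coeff_rescale]

end euler

section defs

variable {k : Type} [Field k] {K : Type} [CommRing K]

/-- the part of the closed points of the plane with `D(t) ≠ 0` -/
noncomputable def LFx (ℓ : ℕ) (w : k) (ζ : K) (f h D : Polynomial k) : PowerSeries K :=
  eulerProd (fun z : (Σ P : {P : MI k // ¬ P.1 ∣ D}, MI (RF P.1)) =>
      z.1.1.1.natDegree * z.2.1.natDegree)
    (fun z => lfx ℓ (algebraMap k (RF z.1.1) w) ζ (tw f h D z.1.1) z.2.1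
      (z.1.1.1.natDegree * z.2.1.natDegree))

/-- the product over the closed points of the line -/
noncomputable def locX (ℓ : ℕ) (w : k) (ζ : K) (g : Polynomial k) : PowerSeries K :=
  eulerProd (fun P : MI k => 1 * P.1.natDegree) (fun P => lfx ℓ w ζ g P.1 (1 * P.1.natDegree))

/-- the factor at infinity -/
noncomputable def infX (ℓ : ℕ) (w : k) (ζ : K) (f h D : Polynomial k) : PowerSeries K :=
  if ℓ ∣ h.natDegree + D.natDegree then
    locX ℓ w ζ (Polynomial.C (-(h.leadingCoeff * D.leadingCoeff)) * f) else 1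

/-- the component of the `L`-function -/
noncomputable def LX (ℓ : ℕ) (w : k) (ζ : K) (f h D : Polynomial k) : PowerSeries K :=
  LFx ℓ w ζ f h D * locX ℓ w ζ D * infX ℓ w ζ f h D

end defs

section main

variable {k : Type} [Field k] [Finite k] {K : Type} [CommRing K] {ℓ : ℕ}

theorem line_finite (n : ℕ) : {P : MI k | 1 * P.1.natDegree ≤ n}.Finite := finite_d one_pos n

theorem map_LX {K' : Type} [CommRing K'] (φ : K →+* K') (w : k) (ζ : K) (f h D : Polynomial k) :
    PowerSeries.map φ (LX ℓ w ζ f h D) = LX ℓ w (φ ζ) f h D := by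
  have h1 : ∀ g : Polynomial k, PowerSeries.map φ (locX ℓ w ζ g) = locX ℓ w (φ ζ) g := by
    intro g
    unfold locX
    rw [map_eulerProd line_finite]
    congr 1
    funext P
    exact map_lfx φ ℓ w ζ _ _ _
  have h2 : PowerSeries.map φ (LFx ℓ w ζ f h D) = LFx ℓ w (φ ζ) f h D := by
    unfold LFx
    rw [map_eulerProd (Pool.Agent.TH943.CY.plane_finite D)]
    congr 1
    funext z
    exact map_lfx φ ℓ _ ζ _ _ _
  unfold LX infX
  rw [map_mul, map_mul, h1, h2]
  congr 1
  split_ifs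
  · rw [h1]
  · rw [map_one]

/-- the reduction modulo the prime above `ℓ` -/
theorem LX_red (hℓ : ℓ.Prime) (hq : ℓ ∣ Nat.card k - 1) {w : k} (hw : IsPrimitiveRoot w ℓ)
    {κ : Type} [CommRing κ] (ι : ZMod ℓ →+* κ) (f h D : Polynomial k) :
    LX ℓ w (1 : κ) f h D ^ (ℓ - 1) = PowerSeries.map ι (red ℓ (LL ℓ f h D)) := by
  have h1 : ∀ g : Polynomial k, locX ℓ w (1 : κ) g ^ (ℓ - 1) =
      PowerSeries.map ι (red ℓ (locL ℓ g 1)) := by
    intro g
    unfold locX Pool.Agent.TH639.SE.locL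
    rw [← eulerProd_pow line_finite (fun P => lfx_mod ℓ w 1 g P.1 _), map_eulerProd line_finite,
      map_eulerProd line_finite]
    congr 1
    funext P
    have := finRF P
    exact lfx_red (k := k) (F := k) P hℓ hq hw ι g (Nat.mul_pos one_pos (MI.deg_pos P))
  have h2 : LFx ℓ w (1 : κ) f h D ^ (ℓ - 1) = PowerSeries.map ι (red ℓ (LF ℓ f h D)) := by
    unfold LFx Pool.Agent.TH639.SE.LF
    rw [← eulerProd_pow (Pool.Agent.TH943.CY.plane_finite D) (fun z => lfx_mod ℓ _ 1 _ _ _),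
      map_eulerProd (Pool.Agent.TH943.CY.plane_finite D),
      map_eulerProd (Pool.Agent.TH943.CY.plane_finite D)]
    congr 1
    funext z
    have := finRF z.1.1
    exact lfx_red (k := k) (F := RF z.1.1) z.2 hℓ hq hw ι _
      (Nat.mul_pos (MI.deg_pos z.1.1) (MI.deg_pos z.2))
  unfold LX infX Pool.Agent.TH639.SE.LL Pool.Agent.TH639.SE.infT
  rw [mul_pow, mul_pow, h1, h2, map_mul, map_mul, map_mul, map_mul]
  congr 1
  split_ifs
  · rw [h1]
  · rw [one_pow, map_one, map_one]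

/-- the product of the components is the `L`-function of the Jacobian -/
theorem LX_prod (hℓ : ℓ.Prime) (hq : ℓ ∣ Nat.card k - 1) {w : k} (hw : IsPrimitiveRoot w ℓ)
    [IsDomain K] {η : K} (hη : IsPrimitiveRoot η ℓ) (f h D : Polynomial k) :
    ∏ ζ ∈ primitiveRoots ℓ K, LX ℓ w ζ f h D =
      PowerSeries.map (Int.castRingHom K) (LL ℓ f h D) := by
  have h1 : ∀ g : Polynomial k, ∏ ζ ∈ primitiveRoots ℓ K, locX ℓ w ζ g =
      PowerSeries.map (Int.castRingHom K) (locL ℓ g 1) := by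
    intro g
    unfold locX Pool.Agent.TH639.SE.locL
    rw [← eulerProd_prod line_finite _ _ (fun ζ P => lfx_mod ℓ w ζ g P.1 _),
      map_eulerProd line_finite]
    congr 1
    funext P
    have := finRF P
    exact lfx_prod (k := k) (F := k) P hℓ hq hw hη g (Nat.mul_pos one_pos (MI.deg_pos P))
  have h2 : ∏ ζ ∈ primitiveRoots ℓ K, LFx ℓ w ζ f h D =
      PowerSeries.map (Int.castRingHom K) (LF ℓ f h D) := by
    unfold LFx Pool.Agent.TH639.SE.LF
    rw [← eulerProd_prod (Pool.Agent.TH943.CY.plane_finite D) _ _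
      (fun ζ z => lfx_mod ℓ _ ζ _ _ _), map_eulerProd (Pool.Agent.TH943.CY.plane_finite D)]
    congr 1
    funext z
    have := finRF z.1.1
    exact lfx_prod (k := k) (F := RF z.1.1) z.2 hℓ hq hw hη _
      (Nat.mul_pos (MI.deg_pos z.1.1) (MI.deg_pos z.2))
  unfold LX infX Pool.Agent.TH639.SE.LL Pool.Agent.TH639.SE.infT
  rw [Finset.prod_mul_distrib, Finset.prod_mul_distrib, h1, h2, map_mul, map_mul]
  congr 1
  split_ifs
  · rw [h1]
  · rw [Finset.prod_const_one, map_one]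

theorem lfx_twist2 (hℓ : ℓ.Prime) (hq : ℓ ∣ Nat.card k - 1) {e : k} (he : ∀ v : k, v ^ ℓ ≠ e)
    {ζ : K} (hζ : ζ ^ ℓ = 1) (j : ℕ) (P : MI k) (Q : MI (RF P)) (g : Polynomial (RF P)) :
    lfx ℓ (algebraMap k (RF P) (e ^ ((Nat.card k - 1) / ℓ))) ζ
      (Polynomial.C (algebraMap k (RF P) (e ^ j)) * g) Q.1 (P.1.natDegree * Q.1.natDegree) =
    rescale (ζ ^ j) (lfx ℓ (algebraMap k (RF P) (e ^ ((Nat.card k - 1) / ℓ))) ζ g Q.1
      (P.1.natDegree * Q.1.natDegree)) := by
  have := finRF P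
  refine lfx_twist (k := k) (F := RF P) Q hℓ hq he hζ j g ?_
  have h := finrank_two Q
  exact h

/-- **the twist by a constant** -/
theorem LX_twist (hℓ : ℓ.Prime) (hq : ℓ ∣ Nat.card k - 1) {e : k} (he : ∀ v : k, v ^ ℓ ≠ e)
    {ζ : K} (hζ : ζ ^ ℓ = 1) (j : ℕ) (f h D : Polynomial k) :
    LX ℓ (e ^ ((Nat.card k - 1) / ℓ)) ζ f h (Polynomial.C (e ^ j) * D) =
      rescale (ζ ^ j) (LX ℓ (e ^ ((Nat.card k - 1) / ℓ)) ζ f h D) := by
  have he0 : e ≠ 0 := by
    rintro rfl
    exact he 0 (zero_pow hℓ.ne_zero)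
  have hej : e ^ j ≠ 0 := pow_ne_zero j he0
  have h1 : ∀ g : Polynomial k, locX ℓ (e ^ ((Nat.card k - 1) / ℓ)) ζ (Polynomial.C (e ^ j) * g) =
      rescale (ζ ^ j) (locX ℓ (e ^ ((Nat.card k - 1) / ℓ)) ζ g) := by
    intro g
    unfold locX
    rw [rescale_eulerProd line_finite]
    congr 1
    funext P
    have := finRF P
    exact lfx_twist (k := k) (F := k) P hℓ hq he hζ j g (by
      rw [one_mul]
      exact finrank_RF P)
  have h2 : LFx ℓ (e ^ ((Nat.card k - 1) / ℓ)) ζ f h (Polynomial.C (e ^ j) * D) =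
      rescale (ζ ^ j) (LFx ℓ (e ^ ((Nat.card k - 1) / ℓ)) ζ f h D) := by
    unfold LFx
    rw [rescale_eulerProd (Pool.Agent.TH943.CY.plane_finite D), eulerProd_comp' (planeE hej D)]
    have key : (fun z : (Σ P : {P : MI k // ¬ P.1 ∣ D}, MI (RF P.1)) =>
        lfx ℓ (algebraMap k (RF (planeE hej D z).1.1) (e ^ ((Nat.card k - 1) / ℓ))) ζ
          (tw f h (Polynomial.C (e ^ j) * D) (planeE hej D z).1.1) (planeE hej D z).2.1
          ((planeE hej D z).1.1.1.natDegree * (planeE hej D z).2.1.natDegree)) =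
        fun z : (Σ P : {P : MI k // ¬ P.1 ∣ D}, MI (RF P.1)) =>
          rescale (ζ ^ j) (lfx ℓ (algebraMap k (RF z.1.1) (e ^ ((Nat.card k - 1) / ℓ))) ζ
            (tw f h D z.1.1) z.2.1 (z.1.1.1.natDegree * z.2.1.natDegree)) := by
      funext z
      have := finRF z.1.1
      show lfx ℓ (algebraMap k (RF z.1.1) (e ^ ((Nat.card k - 1) / ℓ))) ζ
          (tw f h (Polynomial.C (e ^ j) * D) z.1.1) z.2.1
          (z.1.1.1.natDegree * z.2.1.natDegree) = _
      rw [tw_scalar]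
      exact lfx_twist2 hℓ hq he hζ j z.1.1 z.2 (tw f h D z.1.1)
    rw [key]
    rfl
  unfold LX infX
  rw [map_mul, map_mul, h1, h2, Polynomial.natDegree_C_mul hej, Polynomial.leadingCoeff_mul,
    Polynomial.leadingCoeff_C]
  congr 1
  split_ifs
  · rw [← h1, ← mul_assoc (Polynomial.C (e ^ j)), ← Polynomial.C_mul]
    congr 3
    ring
  · rw [map_one]

end main

end Pool.Agent.U695.SL
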