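import Mathlib

/-!
# Products over the roots of unity
-/

set_option autoImplicit false

namespace Pool.Agent.U695.SL

open Finset PowerSeries

variable {K : Type*} [CommRing K] [IsDomain K] {ℓ : ℕ} {η : K}

theorem prod_roots {M : Type*} [CommMonoid M] (hℓ : 0 < ℓ) (hη : IsPrimitiveRoot η ℓ) (F : K → M) :
    ∏ ζ ∈ Polynomial.nthRootsFinset ℓ (1 : K), F ζ = ∏ j ∈ range ℓ, F (η ^ j) := by
  have : NeZero ℓ := ⟨hℓ.ne'⟩
  symm
  refine Finset.prod_bij (fun j _ => η ^ j) ?_ ?_ ?_ ?_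
  · intro j _
    rw [Polynomial.mem_nthRootsFinset hℓ, ← pow_mul, mul_comm, pow_mul, hη.pow_eq_one, one_pow]
  · intro i hi j hj h
    exact hη.pow_inj (mem_range.1 hi) (mem_range.1 hj) h
  · intro ζ hζ
    rw [Polynomial.mem_nthRootsFinset hℓ] at hζ
    obtain ⟨i, hi, h⟩ := hη.eq_pow_of_pow_eq_one hζ
    exact ⟨i, mem_range.2 hi, h⟩
  · intro j _
    rfl

theorem one_sub_ne' {n : ℕ} (hn : 0 < n) : (1 - X ^ n : PowerSeries K) ≠ 0 := by
  intro h
  have h1 := congrArg (constantCoeff (R := K)) h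
  rw [map_sub, map_one, map_pow, constantCoeff_X, zero_pow hn.ne', sub_zero, map_zero] at h1
  exact one_ne_zero h1

/-- all characters of order `ℓ` at a class which is no power -/
theorem prod_prim (hℓ : ℓ.Prime) (hη : IsPrimitiveRoot η ℓ) {n : ℕ} (hn : 0 < n) :
    ∏ ζ ∈ primitiveRoots ℓ K, (1 - C ζ * X ^ n : PowerSeries K) =
      ∑ i ∈ range ℓ, (X ^ n) ^ i := by
  classical
  have hη' : IsPrimitiveRoot (C η : PowerSeries K) ℓ :=
    hη.map_of_injective PowerSeries.C_injective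
  have h1 := hη'.pow_sub_pow_eq_prod_sub_mul (x := 1) (y := X ^ n) hℓ.pos
  rw [one_pow, prod_roots hℓ.pos hη' (fun ζ => 1 - ζ * X ^ n)] at h1
  have h2 : ∏ ζ ∈ Polynomial.nthRootsFinset ℓ (1 : K), (1 - C ζ * X ^ n : PowerSeries K) =
      1 - (X ^ n) ^ ℓ := by
    rw [prod_roots hℓ.pos hη (fun ζ => 1 - C ζ * X ^ n), h1]
    refine Finset.prod_congr rfl fun j _ => ?_
    rw [map_pow]
  rw [nthRootsFinset_eq_of_prime hℓ, Finset.prod_union] at h2
  · rw [Finset.prod_singleton, map_one, one_mul] at h2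
    apply mul_right_cancel₀ (one_sub_ne' (K := K) hn)
    rw [h2, geom_sum_mul_neg]
  · rw [Finset.disjoint_singleton_right, mem_primitiveRoots hℓ.pos]
    intro h
    exact hℓ.one_lt.ne' (h.unique IsPrimitiveRoot.one)

theorem prod_prim_pow {M : Type*} [CommMonoid M] (hℓ : ℓ.Prime) {i : ℕ} (hi0 : 0 < i) (hi : i < ℓ)
    (F : K → M) : ∏ ζ ∈ primitiveRoots ℓ K, F (ζ ^ i) = ∏ ζ ∈ primitiveRoots ℓ K, F ζ := by
  have hco : Nat.Coprime i ℓ :=
    (Nat.coprime_of_lt_prime hi0.ne' hi hℓ).symm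
  obtain ⟨i', -, hi'⟩ := Nat.exists_mul_mod_eq_one_of_coprime hco hℓ.one_lt
  have hpow : ∀ ζ ∈ primitiveRoots ℓ K, ζ ^ (i * i') = ζ := by
    intro ζ hζ
    rw [mem_primitiveRoots hℓ.pos] at hζ
    conv_lhs => rw [← Nat.div_add_mod (i * i') ℓ, hi', pow_add, pow_mul, hζ.pow_eq_one, one_pow,
      one_mul, pow_one]
  have hco' : Nat.Coprime i' ℓ := by
    rw [Nat.coprime_comm, hℓ.coprime_iff_not_dvd]
    intro h
    rw [Nat.mod_eq_zero_of_dvd (h.mul_left i)] at hi'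
    exact zero_ne_one hi'
  refine Finset.prod_nbij' (fun ζ => ζ ^ i) (fun ζ => ζ ^ i') ?_ ?_ ?_ ?_ ?_
  · intro ζ hζ
    rw [mem_primitiveRoots hℓ.pos] at hζ ⊢
    exact hζ.pow_of_coprime i hco
  · intro ζ hζ
    rw [mem_primitiveRoots hℓ.pos] at hζ ⊢
    exact hζ.pow_of_coprime i' hco'
  · intro ζ hζ
    rw [← pow_mul]
    exact hpow ζ hζ
  · intro ζ hζ
    rw [← pow_mul, mul_comm]
    exact hpow ζ hζ
  · intro ζ _
    rfl

end Pool.Agent.U695.SL
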