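import Mathlib

/-!
# The power residue symbol with values in another ring
-/

set_option autoImplicit false

namespace Pool.Agent.U695.SL

open Finset

section field

variable {E : Type*} [Field E] {K : Type*} [CommRing K]

open Classical in
/-- The power residue symbol of `u`: it is `ζ ^ i` if `u ^ ((|E| - 1) / ℓ) = w ^ i`. -/
noncomputable def syE (ℓ : ℕ) (w : E) (ζ : K) (u : E) : K :=
  ∑ i ∈ range ℓ, if u ^ ((Nat.card E - 1) / ℓ) = w ^ i then ζ ^ i else 0

variable {ℓ : ℕ} {w : E} {ζ : K}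

theorem syE_of_eq (hw : IsPrimitiveRoot w ℓ) {u : E} {i : ℕ} (hi : i < ℓ)
    (h : u ^ ((Nat.card E - 1) / ℓ) = w ^ i) : syE ℓ w ζ u = ζ ^ i := by
  classical
  unfold syE
  rw [Finset.sum_eq_single i]
  · rw [if_pos h]
  · intro j hj hne
    rw [if_neg]
    intro h'
    rw [h] at h'
    exact hne (hw.pow_inj hi (mem_range.1 hj) h').symm
  · intro h'
    exact absurd (mem_range.2 hi) h'

theorem syE_zero (hw : w ≠ 0) (hM : 0 < (Nat.card E - 1) / ℓ) : syE ℓ w ζ 0 = 0 := by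
  classical
  unfold syE
  refine Finset.sum_eq_zero fun i _ => ?_
  rw [if_neg]
  rw [zero_pow hM.ne']
  exact (pow_ne_zero i hw).symm

theorem exists_pow [Finite E] (hℓ : 0 < ℓ) (hd : ℓ ∣ Nat.card E - 1) (hw : IsPrimitiveRoot w ℓ)
    {u : E} (hu : u ≠ 0) : ∃ i < ℓ, u ^ ((Nat.card E - 1) / ℓ) = w ^ i := by
  have := Fintype.ofFinite E
  have : NeZero ℓ := ⟨hℓ.ne'⟩
  obtain ⟨i, hi, h⟩ := hw.eq_pow_of_pow_eq_one (ξ := u ^ ((Nat.card E - 1) / ℓ)) (by
    rw [← pow_mul, Nat.div_mul_cancel hd, Nat.card_eq_fintype_card]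
    exact FiniteField.pow_card_sub_one_eq_one u hu)
  exact ⟨i, hi, h.symm⟩

theorem pow_congr {R : Type*} [Monoid R] {x : R} (hx : x ^ ℓ = 1) {a b : ℕ} (h : a ≡ b [MOD ℓ]) :
    x ^ a = x ^ b := by
  rw [← Nat.div_add_mod a ℓ, ← Nat.div_add_mod b ℓ, pow_add, pow_add, pow_mul, pow_mul, hx,
    one_pow, one_pow, h]

/-- a factor whose symbol is known -/
theorem syE_mul [Finite E] (hℓ : 0 < ℓ) (hd : ℓ ∣ Nat.card E - 1) (hM : 0 < (Nat.card E - 1) / ℓ)
    (hw : IsPrimitiveRoot w ℓ) (hζ : ζ ^ ℓ = 1) {c : E} {a : ℕ}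
    (hc : c ^ ((Nat.card E - 1) / ℓ) = w ^ a) (u : E) :
    syE ℓ w ζ (c * u) = ζ ^ a * syE ℓ w ζ u := by
  have hw0 : w ≠ 0 := hw.ne_zero hℓ.ne'
  by_cases hu : u = 0
  · rw [hu, mul_zero, syE_zero hw0 hM, mul_zero]
  · obtain ⟨i, hi, h⟩ := exists_pow hℓ hd hw hu
    have hc0 : c ≠ 0 := by
      rintro rfl
      rw [zero_pow hM.ne'] at hc
      exact pow_ne_zero a hw0 hc.symm
    obtain ⟨i', hi', h'⟩ := exists_pow hℓ hd hw (mul_ne_zero hc0 hu)
    rw [syE_of_eq hw hi h, syE_of_eq hw hi' h', ← pow_add]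
    have h1 : (a + i) % ℓ ≡ a + i [MOD ℓ] := Nat.mod_modEq _ _
    rw [mul_pow, hc, h, ← pow_add, ← pow_congr hw.pow_eq_one h1] at h'
    rw [← hw.pow_inj (Nat.mod_lt _ hℓ) hi' h', pow_congr hζ h1]

theorem map_syE {K' : Type*} [CommRing K'] (φ : K →+* K') (u : E) :
    φ (syE ℓ w ζ u) = syE ℓ w (φ ζ) u := by
  classical
  unfold syE
  rw [map_sum]
  refine Finset.sum_congr rfl fun i _ => ?_
  split_ifs
  · rw [map_pow]
  · rw [map_zero]

theorem syE_one [Finite E] (hℓ : 0 < ℓ) (hd : ℓ ∣ Nat.card E - 1) (hw : IsPrimitiveRoot w ℓ)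
    {u : E} (hu : u ≠ 0) : syE ℓ w (1 : K) u = 1 := by
  obtain ⟨i, hi, h⟩ := exists_pow hℓ hd hw hu
  rw [syE_of_eq hw hi h, one_pow]

end field

section const

/-- the symbol of a constant -/
theorem const_pow {k : Type*} [Field k] [Finite k] {E : Type*} [Field E] [Finite E] [Algebra k E]
    {ℓ : ℕ} (hℓ : ℓ.Prime) (hq : ℓ ∣ Nat.card k - 1) {e : k} (he : e ≠ 0) :
    (ℓ ∣ Nat.card E - 1) ∧ (algebraMap k E e) ^ ((Nat.card E - 1) / ℓ) =
      (algebraMap k E (e ^ ((Nat.card k - 1) / ℓ))) ^ (Module.finrank k E) := by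
  have := Fintype.ofFinite k
  have hk1 : 1 < Nat.card k := by
    rw [Nat.card_eq_fintype_card]; exact Fintype.one_lt_card
  obtain ⟨m, hm⟩ := hq
  set N := Module.finrank k E with hN
  set S := ∑ i ∈ Finset.range N, Nat.card k ^ i with hS
  have hcard : Nat.card E - 1 = ℓ * (m * S) := by
    have h1 : Nat.card E = Nat.card k ^ N := by
      have hfd : Module.Finite k E := inferInstance
      exact Module.natCard_eq_pow_finrank
    have h2 := geom_sum_mul_of_one_le hk1.le N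
    rw [h1, ← h2, hm, ← hS]
    ring
  have hdiv : (Nat.card E - 1) / ℓ = m * S := by
    rw [hcard, Nat.mul_div_cancel_left _ hℓ.pos]
  have hm' : (Nat.card k - 1) / ℓ = m := by rw [hm, Nat.mul_div_cancel_left _ hℓ.pos]
  have hSN : S ≡ N [MOD ℓ] := by
    have h1 : Nat.card k ≡ 1 [MOD ℓ] := by
      have : Nat.card k = 1 + ℓ * m := by omega
      rw [this]
      exact (Nat.modEq_iff_dvd' (by omega)).2 ⟨m, by omega⟩ |>.symm
    have h2 : S ≡ ∑ i ∈ Finset.range N, 1 [MOD ℓ] := by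
      rw [hS]
      refine Nat.ModEq.sum fun i _ => ?_
      simpa using h1.pow i
    simpa using h2
  refine ⟨⟨_, hcard⟩, ?_⟩
  rw [hdiv, hm', pow_mul, ← map_pow]
  apply pow_congr _ hSN
  rw [← map_pow, ← pow_mul, mul_comm m ℓ, ← hm, Nat.card_eq_fintype_card,
    FiniteField.pow_card_sub_one_eq_one e he, map_one]

/-- the symbol of a constant which is no power is a primitive root of unity -/
theorem prim {k : Type*} [Field k] [Finite k] {ℓ : ℕ} (hℓ : ℓ.Prime) (hq : ℓ ∣ Nat.card k - 1)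
    {e : k} (he : ∀ v : k, v ^ ℓ ≠ e) : IsPrimitiveRoot (e ^ ((Nat.card k - 1) / ℓ)) ℓ := by
  have := Fintype.ofFinite k
  have hF : Fact ℓ.Prime := ⟨hℓ⟩
  have he0 : e ≠ 0 := by
    rintro rfl
    exact he 0 (zero_pow hℓ.ne_zero)
  obtain ⟨r, hr⟩ := hq
  have hr' : (Nat.card k - 1) / ℓ = r := by rw [hr, Nat.mul_div_cancel_left _ hℓ.pos]
  have hcu : Nat.card kˣ = Nat.card k - 1 := Nat.card_units k
  have hpos : 0 < Nat.card k - 1 := by
    rw [← hcu]; exact Nat.card_pos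
  have hr0 : 0 < r := by
    rcases Nat.eq_zero_or_pos r with h0 | h0
    · rw [h0, mul_zero] at hr; omega
    · exact h0
  have h1 : (e ^ r) ^ ℓ = 1 := by
    rw [← pow_mul, mul_comm r ℓ, ← hr, Nat.card_eq_fintype_card]
    exact FiniteField.pow_card_sub_one_eq_one e he0
  have h2 : e ^ r ≠ 1 := by
    intro h
    obtain ⟨g, hg⟩ := IsCyclic.exists_generator (α := kˣ)
    have hord : orderOf g = Nat.card k - 1 := by
      rw [orderOf_eq_card_of_forall_mem_zpowers hg, hcu]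
    obtain ⟨j, hj⟩ := mem_powers_iff_mem_zpowers.2 (hg (Units.mk0 e he0))
    have hj' : g ^ j = Units.mk0 e he0 := hj
    have h1 : g ^ (j * r) = 1 := by
      rw [pow_mul, hj']
      apply Units.ext
      rw [Units.val_pow_eq_pow_val, Units.val_mk0, h, Units.val_one]
    have h2 := orderOf_dvd_of_pow_eq_one h1
    rw [hord, hr] at h2
    obtain ⟨i, hi⟩ := Nat.dvd_of_mul_dvd_mul_right hr0 h2
    refine he ((g ^ i : kˣ) : k) ?_
    rw [← Units.val_pow_eq_pow_val, ← pow_mul, mul_comm i ℓ, ← hi, hj', Units.val_mk0]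
  rw [hr']
  have h4 := IsPrimitiveRoot.orderOf (e ^ r)
  rwa [orderOf_eq_prime h1 h2] at h4

end const

end Pool.Agent.U695.SL
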