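import Pool.Agent.TH639.SE.Fin
import Pool.Agent.U695.SL.Sym
import Pool.Agent.U695.SL.Roots

/-!
# The Euler factors of the components of the `L`-function of a superelliptic Jacobian
-/

set_option autoImplicit false
set_option maxHeartbeats 1000000

open PowerSeries

namespace Pool.Agent.U695.SL

open Pool.Agent.W313.Hyp Pool.Agent.W343.BSD
open Pool.Agent.TH639.SE (lf red lf_of_dvd red_lf)

section loc

variable {F : Type} [Field F] {K : Type} [CommRing K]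

open Classical in
/-- The power residue symbol of `g` at `Q`: it is `0` if `Q` divides `g`, and `ζ ^ i` if
`g ^ ((N - 1) / ℓ)` is congruent to `w ^ i` modulo `Q`, `N` the number of residue classes. -/
noncomputable def sym (ℓ : ℕ) (w : F) (ζ : K) (g Q : Polynomial F) : K :=
  ∑ i ∈ Finset.range ℓ,
    if Q ∣ g ^ ((Nat.card F ^ Q.natDegree - 1) / ℓ) - Polynomial.C (w ^ i) then ζ ^ i else 0

/-- the Euler factor -/
noncomputable def lfx (ℓ : ℕ) (w : F) (ζ : K) (g Q : Polynomial F) (n : ℕ) : PowerSeries K :=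
  1 - C (sym ℓ w ζ g Q) * X ^ n

theorem lfx_mod (ℓ : ℕ) (w : F) (ζ : K) (g Q : Polynomial F) (n : ℕ) :
    (X : PowerSeries K) ^ n ∣ lfx ℓ w ζ g Q n - 1 := by
  unfold lfx
  rw [sub_right_comm, sub_self, zero_sub, dvd_neg]
  exact dvd_mul_left _ _

theorem card_adj [Finite F] (Q : MI F) : Nat.card (AdjoinRoot Q.1) = Nat.card F ^ Q.1.natDegree := by
  have := Q.2.1.finite_adjoinRoot
  rw [Module.natCard_eq_pow_finrank (K := F) (V := AdjoinRoot Q.1),
    (AdjoinRoot.powerBasis Q.2.2.ne_zero).finrank, AdjoinRoot.powerBasis_dim]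

theorem sym_eq [Finite F] (ℓ : ℕ) (w : F) (ζ : K) (g : Polynomial F) (Q : MI F)
    [Fact (Irreducible Q.1)] :
    sym ℓ w ζ g Q.1 = syE (E := AdjoinRoot Q.1) ℓ (algebraMap F (AdjoinRoot Q.1) w) ζ
      (AdjoinRoot.mk Q.1 g) := by
  classical
  unfold sym syE
  refine Finset.sum_congr rfl fun i _ => ?_
  refine if_congr ?_ rfl rfl
  rw [card_adj, ← AdjoinRoot.mk_eq_zero, map_sub, map_pow, sub_eq_zero, AdjoinRoot.mk_C,
    ← map_pow (algebraMap F (AdjoinRoot Q.1))]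
  rfl

theorem map_sym {K' : Type} [CommRing K'] (φ : K →+* K') (ℓ : ℕ) (w : F) (ζ : K)
    (g Q : Polynomial F) : φ (sym ℓ w ζ g Q) = sym ℓ w (φ ζ) g Q := by
  classical
  unfold sym
  rw [map_sum]
  refine Finset.sum_congr rfl fun i _ => ?_
  split_ifs
  · rw [map_pow]
  · rw [map_zero]

theorem map_lfx {K' : Type} [CommRing K'] (φ : K →+* K') (ℓ : ℕ) (w : F) (ζ : K)
    (g Q : Polynomial F) (n : ℕ) :
    PowerSeries.map φ (lfx ℓ w ζ g Q n) = lfx ℓ w (φ ζ) g Q n := by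
  unfold lfx
  rw [map_sub, map_one, map_mul, PowerSeries.map_C, map_sym, map_pow, PowerSeries.map_X]

section main

variable {k : Type} [Field k] [Finite k] [Finite F] [Algebra k F] {ℓ : ℕ} (Q : MI F)

omit [Finite k] [Finite F] in
theorem prim_adj {w : k} (hw : IsPrimitiveRoot w ℓ) (hQ : Fact (Irreducible Q.1)) :
    IsPrimitiveRoot (algebraMap F (AdjoinRoot Q.1) (algebraMap k F w)) ℓ :=
  (hw.map_of_injective (algebraMap k F).injective).map_of_injective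
    (algebraMap F (AdjoinRoot Q.1)).injective

theorem dvd_card (hℓ : ℓ.Prime) (hq : ℓ ∣ Nat.card k - 1) (hQ : Fact (Irreducible Q.1)) :
    ℓ ∣ Nat.card (AdjoinRoot Q.1) - 1 ∧ 0 < (Nat.card (AdjoinRoot Q.1) - 1) / ℓ := by
  have hfd := Q.2.1.finite_adjoinRoot
  have hfin : Finite (AdjoinRoot Q.1) := Module.finite_of_finite F
  have h1 := (const_pow (k := k) (E := AdjoinRoot Q.1) hℓ hq (e := 1) one_ne_zero).1
  refine ⟨h1, Nat.div_pos (Nat.le_of_dvd ?_ h1) hℓ.pos⟩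
  have h2 : 1 < Nat.card (AdjoinRoot Q.1) := Finite.one_lt_card
  omega

theorem sym_zero (hℓ : ℓ.Prime) (hq : ℓ ∣ Nat.card k - 1) {w : k} (hw : IsPrimitiveRoot w ℓ)
    (ζ : K) {g : Polynomial F} (h : Q.1 ∣ g) : sym ℓ (algebraMap k F w) ζ g Q.1 = 0 := by
  have hQ : Fact (Irreducible Q.1) := ⟨Q.2.2⟩
  rw [sym_eq, AdjoinRoot.mk_eq_zero.2 h]
  exact syE_zero ((prim_adj Q hw hQ).ne_zero hℓ.ne_zero) (dvd_card (k := k) Q hℓ hq hQ).2

/-- the value at a point where `g` does not vanish -/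
theorem sym_spec (hℓ : ℓ.Prime) (hq : ℓ ∣ Nat.card k - 1) {w : k} (hw : IsPrimitiveRoot w ℓ)
    {g : Polynomial F} (h : ¬ Q.1 ∣ g) : ∃ i < ℓ, (∀ (K : Type) [CommRing K] (ζ : K),
      sym ℓ (algebraMap k F w) ζ g Q.1 = ζ ^ i) ∧
      (i = 0 ↔ ∃ s : Polynomial F, Q.1 ∣ g - s ^ ℓ) := by
  have hQ : Fact (Irreducible Q.1) := ⟨Q.2.2⟩
  have hfd := Q.2.1.finite_adjoinRoot
  have hfin : Finite (AdjoinRoot Q.1) := Module.finite_of_finite F
  have h0 : AdjoinRoot.mk Q.1 g ≠ 0 := fun h' => h (AdjoinRoot.mk_eq_zero.1 h')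
  have hd := dvd_card (k := k) Q hℓ hq hQ
  obtain ⟨i, hi, h1⟩ := exists_pow hℓ.pos hd.1 (prim_adj Q hw hQ) h0
  refine ⟨i, hi, fun K _ ζ => ?_, ?_⟩
  · rw [sym_eq, syE_of_eq (prim_adj Q hw hQ) hi h1]
  · have h2 : (∃ s : Polynomial F, Q.1 ∣ g - s ^ ℓ) ↔
        ∃ v : AdjoinRoot Q.1, v ^ ℓ = AdjoinRoot.mk Q.1 g := by
      constructor
      · rintro ⟨s, hs⟩
        refine ⟨AdjoinRoot.mk Q.1 s, ?_⟩
        rw [← AdjoinRoot.mk_eq_zero, map_sub, map_pow, sub_eq_zero] at hs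
        exact hs.symm
      · rintro ⟨v, hv⟩
        obtain ⟨s, rfl⟩ := AdjoinRoot.mk_surjective v
        refine ⟨s, ?_⟩
        rw [← AdjoinRoot.mk_eq_zero, map_sub, map_pow, hv, sub_self]
    rw [h2, Pool.Agent.TH639.SE.isPow_iff hℓ hd.1 h0, h1]
    constructor
    · rintro rfl
      exact pow_zero _
    · intro h3
      by_contra hne
      exact (prim_adj Q hw hQ).pow_ne_one_of_pos_of_lt hne hi h3

/-- the symbol modulo the prime above `ℓ` -/
theorem lfx_red (hℓ : ℓ.Prime) (hq : ℓ ∣ Nat.card k - 1) {w : k} (hw : IsPrimitiveRoot w ℓ)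
    {κ : Type} [CommRing κ] (ι : ZMod ℓ →+* κ) (g : Polynomial F) {n : ℕ} (hn : 0 < n) :
    lfx ℓ (algebraMap k F w) (1 : κ) g Q.1 n ^ (ℓ - 1) =
      PowerSeries.map ι (red ℓ (lf ℓ g Q.1 n)) := by
  have hF : Fact ℓ.Prime := ⟨hℓ⟩
  unfold lfx
  by_cases h : Q.1 ∣ g
  · rw [sym_zero Q hℓ hq hw _ h, map_zero, zero_mul, sub_zero, one_pow, lf_of_dvd h, map_one,
      map_one]
  · obtain ⟨i, -, h1, -⟩ := sym_spec Q hℓ hq hw h
    rw [h1, one_pow, map_one, one_mul, red_lf hn h, map_pow, map_sub, map_one, map_pow,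
      PowerSeries.map_X]

/-- the product over all characters of order `ℓ` -/
theorem lfx_prod (hℓ : ℓ.Prime) (hq : ℓ ∣ Nat.card k - 1) {w : k} (hw : IsPrimitiveRoot w ℓ)
    [IsDomain K] {η : K} (hη : IsPrimitiveRoot η ℓ) (g : Polynomial F) {n : ℕ} (hn : 0 < n) :
    ∏ ζ ∈ primitiveRoots ℓ K, lfx ℓ (algebraMap k F w) ζ g Q.1 n =
      PowerSeries.map (Int.castRingHom K) (lf ℓ g Q.1 n) := by
  unfold lfx
  by_cases h : Q.1 ∣ g
  · rw [lf_of_dvd h, map_one]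
    refine Finset.prod_eq_one fun ζ _ => ?_
    rw [sym_zero Q hℓ hq hw _ h, map_zero, zero_mul, sub_zero]
  · obtain ⟨i, hi, h1, h2⟩ := sym_spec Q hℓ hq hw h
    rw [Finset.prod_congr rfl fun ζ _ => by rw [h1]]
    unfold Pool.Agent.TH639.SE.lf
    rw [if_neg h]
    by_cases h0 : i = 0
    · rw [if_pos (h2.1 h0), h0]
      have h3 : ∏ ζ ∈ primitiveRoots ℓ K, (1 - C (ζ ^ 0) * X ^ n : PowerSeries K) =
          (1 - X ^ n) ^ (ℓ - 1) := by
        rw [Finset.prod_congr rfl fun ζ _ => by rw [pow_zero, map_one, one_mul],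
          Finset.prod_const, hη.card_primitiveRoots, Nat.totient_prime hℓ]
      rw [h3, map_pow, map_sub, map_one, map_pow, PowerSeries.map_X]
    · rw [if_neg (fun h' => h0 (h2.2 h')),
        prod_prim_pow hℓ (Nat.pos_of_ne_zero h0) hi (fun ζ => (1 - C ζ * X ^ n : PowerSeries K)),
        prod_prim hℓ hη hn, map_sum]
      refine Finset.sum_congr rfl fun j _ => ?_
      rw [map_pow, map_pow, PowerSeries.map_X]

theorem rescale_fac (a s : K) (n : ℕ) :
    rescale a (1 - C s * X ^ n : PowerSeries K) = 1 - C (a ^ n * s) * X ^ n := by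
  have h1 : rescale a (C s : PowerSeries K) = C s := by
    ext m
    rw [coeff_rescale, coeff_C]
    split_ifs with h
    · rw [h, pow_zero, one_mul]
    · rw [mul_zero]
  rw [map_sub, map_one, map_mul, map_pow, rescale_X, h1, mul_pow, ← map_pow, map_mul]
  ring

/-- the twist by a constant -/
theorem lfx_twist (hℓ : ℓ.Prime) (hq : ℓ ∣ Nat.card k - 1) {e : k} (he : ∀ v : k, v ^ ℓ ≠ e)
    {ζ : K} (hζ : ζ ^ ℓ = 1) (j : ℕ) (g : Polynomial F) {n : ℕ}
    (hn : Module.finrank k (AdjoinRoot Q.1) = n) :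
    lfx ℓ (algebraMap k F (e ^ ((Nat.card k - 1) / ℓ))) ζ
      (Polynomial.C (algebraMap k F (e ^ j)) * g) Q.1 n =
    rescale (ζ ^ j) (lfx ℓ (algebraMap k F (e ^ ((Nat.card k - 1) / ℓ))) ζ g Q.1 n) := by
  have hQ : Fact (Irreducible Q.1) := ⟨Q.2.2⟩
  have hfd := Q.2.1.finite_adjoinRoot
  have hfin : Finite (AdjoinRoot Q.1) := Module.finite_of_finite F
  have he0 : e ≠ 0 := by
    rintro rfl
    exact he 0 (zero_pow hℓ.ne_zero)
  have hw := prim hℓ hq he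
  have hd := dvd_card (k := k) Q hℓ hq hQ
  unfold lfx
  rw [rescale_fac]
  congr 3
  rw [sym_eq, sym_eq, map_mul, AdjoinRoot.mk_C]
  have h1 : (AdjoinRoot.of Q.1 (algebraMap k F (e ^ j))) ^
      ((Nat.card (AdjoinRoot Q.1) - 1) / ℓ) =
      (algebraMap F (AdjoinRoot Q.1) (algebraMap k F (e ^ ((Nat.card k - 1) / ℓ)))) ^ (j * n) := by
    have h2 := (const_pow (k := k) (E := AdjoinRoot Q.1) hℓ hq he0).2
    rw [hn] at h2
    have h3 : AdjoinRoot.of Q.1 (algebraMap k F (e ^ j)) =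
        (algebraMap k (AdjoinRoot Q.1) e) ^ j := by
      rw [← map_pow, IsScalarTower.algebraMap_apply k F (AdjoinRoot Q.1)]
      rfl
    rw [h3, ← pow_mul, mul_comm j, pow_mul, h2, ← pow_mul, mul_comm n,
      ← IsScalarTower.algebraMap_apply k F (AdjoinRoot Q.1)]
  rw [syE_mul hℓ.pos hd.1 hd.2 (prim_adj Q hw hQ) hζ h1, pow_mul]

end main

end loc

end Pool.Agent.U695.SL
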