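import Pool.Agent.U695.SL.Glob

/-!
# The orders of vanishing of the components
-/

set_option autoImplicit false
set_option maxHeartbeats 1000000

namespace Pool.Agent.U695.SL

open Polynomial
open Pool.Agent.W313.Hyp Pool.Agent.W343.BSD
open Pool.Agent.TH639.SE (red LL cA cB identity_LL IsMu isMu_facs isMu_Psi Psi)

section alg

variable {K : Type} [Field K]

/-- different linear factors are coprime -/
theorem lin_coprime {a b : K} (h : a ≠ b) :
    IsCoprime (1 - C a * X : K[X]) (1 - C b * X) := by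
  have hne : b - a ≠ 0 := sub_ne_zero.2 (Ne.symm h)
  refine ⟨C (b / (b - a)), C (-(a / (b - a))), ?_⟩
  have e1 : (C (b / (b - a)) : K[X]) * (1 - C a * X) + C (-(a / (b - a))) * (1 - C b * X) =
      C (b / (b - a) - a / (b - a)) := by
    have e2 : (C (b / (b - a)) : K[X]) * C a = C (a / (b - a)) * C b := by
      rw [← C_mul, ← C_mul]
      congr 1
      ring
    rw [C_neg, C_sub]
    linear_combination (-X : K[X]) * e2
  rw [e1, ← sub_div, div_self hne, C_1]

/-- the factors of a polynomial from the factors of its rescalings -/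
theorem prod_dvd {ℓ : ℕ} {ζ : K} (hζ : IsPrimitiveRoot ζ ℓ) {q : K} (hq : q ≠ 0) (P : K[X])
    (G : ℕ → K[X]) (r : ℕ → ℕ)
    (h : ∀ j < ℓ, P.comp (C (ζ ^ j) * X) = (1 - C q * X) ^ r j * G j) :
    (∏ j ∈ Finset.range ℓ, (1 - C (q * ζ ^ (ℓ - j)) * X) ^ r j) ∣ P := by
  have hinv : ∀ j < ℓ, ζ ^ j * ζ ^ (ℓ - j) = 1 := fun j hj => by
    rw [← pow_add, Nat.add_sub_cancel' hj.le, hζ.pow_eq_one]
  refine Finset.prod_dvd_of_coprime ?_ ?_
  · intro i hi j hj hij
    refine IsCoprime.pow (lin_coprime fun h' => hij ?_)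
    have hi' := Finset.mem_range.1 (Finset.mem_coe.1 hi)
    have hj' := Finset.mem_range.1 (Finset.mem_coe.1 hj)
    have h1 : ζ ^ (ℓ - i) = ζ ^ (ℓ - j) := mul_left_cancel₀ hq h'
    have h2 : ζ ^ j = ζ ^ i := by
      calc ζ ^ j = ζ ^ j * (ζ ^ i * ζ ^ (ℓ - i)) := by rw [hinv i hi', mul_one]
        _ = ζ ^ i * (ζ ^ j * ζ ^ (ℓ - j)) := by rw [h1]; ring
        _ = ζ ^ i := by rw [hinv j hj', mul_one]
    exact (hζ.pow_inj hj' hi' h2).symm
  · intro j hj
    have hj' := Finset.mem_range.1 hj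
    have h1 := congrArg (fun p : K[X] => p.comp (C (ζ ^ (ℓ - j)) * X)) (h j hj')
    change (P.comp _).comp _ = (_ * _ : K[X]).comp _ at h1
    rw [comp_assoc] at h1
    have h2 : (C (ζ ^ j) * X : K[X]).comp (C (ζ ^ (ℓ - j)) * X) = X := by
      rw [mul_comp, C_comp, X_comp, ← mul_assoc, ← C_mul, hinv j hj', C_1, one_mul]
    rw [h2, comp_X, mul_comp, pow_comp, sub_comp, one_comp, mul_comp, C_comp, X_comp,
      ← mul_assoc, ← C_mul] at h1
    exact ⟨_, h1⟩

/-- a polynomial whose power series has integral coefficients -/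
theorem exists_lift {R : Type} [CommRing R] [Algebra R K]
    (hinj : Function.Injective (algebraMap R K)) {L : PowerSeries R} {U : R[X]}
    (hU : U.coeff 0 = 1) {G : K[X]}
    (h : PowerSeries.map (algebraMap R K) L =
      ((U.map (algebraMap R K) * G : K[X]) : PowerSeries K)) :
    ∃ G' : R[X], L = ((U * G' : R[X]) : PowerSeries R) := by
  have hcoe : ∀ p : R[X], ((p.map (algebraMap R K) : K[X]) : PowerSeries K) =
      PowerSeries.map (algebraMap R K) (p : PowerSeries R) := by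
    intro p
    ext n
    rw [Polynomial.coeff_coe, PowerSeries.coeff_map, Polynomial.coeff_coe, coeff_map]
  have hu : IsUnit (U : PowerSeries R) := by
    rw [PowerSeries.isUnit_iff_constantCoeff, ← PowerSeries.coeff_zero_eq_constantCoeff_apply,
      Polynomial.coeff_coe, hU]
    exact isUnit_one
  obtain ⟨V, hV⟩ := hu.exists_right_inv
  have hW : PowerSeries.map (algebraMap R K) (L * V) = (G : PowerSeries K) := by
    have h1 : PowerSeries.map (algebraMap R K) (U : PowerSeries R) *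
        PowerSeries.map (algebraMap R K) V = 1 := by rw [← map_mul, hV, map_one]
    rw [map_mul, h, Polynomial.coe_mul, hcoe]
    calc PowerSeries.map (algebraMap R K) (U : PowerSeries R) * (G : PowerSeries K) *
          PowerSeries.map (algebraMap R K) V =
          (PowerSeries.map (algebraMap R K) (U : PowerSeries R) *
            PowerSeries.map (algebraMap R K) V) * (G : PowerSeries K) := by ring
      _ = _ := by rw [h1, one_mul]
  have hG : G ∈ Polynomial.lifts (algebraMap R K) := by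
    rw [Polynomial.lifts_iff_coeff_lifts]
    intro n
    have h2 := congrArg (PowerSeries.coeff n) hW
    rw [PowerSeries.coeff_map, Polynomial.coeff_coe] at h2
    exact ⟨_, h2⟩
  obtain ⟨G', hG'⟩ := (Polynomial.mem_lifts G).1 hG
  refine ⟨G', ?_⟩
  have hinj' : Function.Injective (PowerSeries.map (algebraMap R K)) := by
    intro a b hab
    ext n
    apply hinj
    have := congrArg (PowerSeries.coeff n) hab
    rwa [PowerSeries.coeff_map, PowerSeries.coeff_map] at this
  apply hinj'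
  rw [h, ← hG', ← Polynomial.map_mul, hcoe]

/-- the residue field above `ℓ` -/
theorem exists_residue (K : Type) [Field K] [CharZero K] {ℓ : ℕ} (hℓ : ℓ.Prime) :
    ∃ (κ : Type) (_ : Field κ) (_ : CharP κ ℓ), Nonempty (integralClosure ℤ K →+* κ) := by
  have hF : Fact ℓ.Prime := ⟨hℓ⟩
  have hmax : (Ideal.span {(ℓ : ℤ)}).IsMaximal := Int.ideal_span_isMaximal_of_prime ℓ
  obtain ⟨Q, hQ, hQc⟩ := Ideal.exists_ideal_over_maximal_of_isIntegral
    (S := integralClosure ℤ K) (Ideal.span {(ℓ : ℤ)}) (by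
      have hinj : Function.Injective (algebraMap ℤ (integralClosure ℤ K)) :=
        FaithfulSMul.algebraMap_injective ℤ (integralClosure ℤ K)
      rw [(RingHom.injective_iff_ker_eq_bot _).1 hinj]
      exact bot_le)
  let _ : Field (integralClosure ℤ K ⧸ Q) := Ideal.Quotient.field Q
  have h0 : ((ℓ : ℕ) : integralClosure ℤ K ⧸ Q) = 0 := by
    have h1 : (ℓ : ℤ) ∈ Ideal.span {(ℓ : ℤ)} := Ideal.mem_span_singleton_self _
    rw [← hQc, Ideal.mem_comap] at h1
    have h2 := Ideal.Quotient.eq_zero_iff_mem.2 h1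
    rw [← h2, map_natCast, map_natCast]
  refine ⟨integralClosure ℤ K ⧸ Q, inferInstance, (CharP.charP_iff_prime_eq_zero hℓ).2 h0,
    ⟨Ideal.Quotient.mk Q⟩⟩

end alg

section bound

variable {k : Type} [Field k] [Finite k] {ℓ : ℕ}

/-- **the bound for the sum of the orders of the twists of one component** -/
theorem order_bound (hℓ : ℓ.Prime) (hq : ℓ ∣ Nat.card k - 1) {e : k} (he : ∀ v : k, v ^ ℓ ≠ e)
    {K : Type} [Field K] [CharZero K] {ζ : K} (hζ : IsPrimitiveRoot ζ ℓ) {f h D : k[X]}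
    (hf : f ≠ 0) (hfh : f.comp h ≠ 0) (hh : h ≠ 0) (hD : D ≠ 0) (r : ℕ → ℕ)
    (hr : ∀ j < ℓ, ∃ G : K[X], LX ℓ (e ^ ((Nat.card k - 1) / ℓ)) ζ f h (C (e ^ j) * D) =
      (((1 - C (Nat.card k : K) * X) ^ r j * G : K[X]) : PowerSeries K)) :
    ∑ j ∈ Finset.range ℓ, r j + cA ℓ f h D ≤ cB ℓ f h D := by
  classical
  have hF : Fact ℓ.Prime := ⟨hℓ⟩
  set w := e ^ ((Nat.card k - 1) / ℓ) with hwd
  have hw : IsPrimitiveRoot w ℓ := prim hℓ hq he
  set R := integralClosure ℤ K with hR
  obtain ⟨κ, _, _, ⟨φ⟩⟩ := exists_residue K hℓ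
  have hint : IsIntegral ℤ ζ := by
    refine ⟨X ^ ℓ - 1, monic_X_pow_sub_C 1 hℓ.ne_zero, ?_⟩
    simp [hζ.pow_eq_one]
  set ζR : R := ⟨ζ, hint⟩ with hζR
  have hζR1 : ζR ^ ℓ = 1 := by
    apply Subtype.ext
    simp [hζR, hζ.pow_eq_one]
  have hinj : Function.Injective (algebraMap R K) := Subtype.val_injective
  have hqK : (Nat.card k : K) ≠ 0 := by
    have : Nat.card k ≠ 0 := Nat.card_pos.ne'
    exact_mod_cast this
  -- the values modulo `ℓ`
  have hφζ : φ ζR = 1 := by
    have h1 : (φ ζR - 1) ^ ℓ = 0 := by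
      have hex : ExpChar κ ℓ := inferInstance
      rw [sub_pow_expChar, ← map_pow, hζR1, map_one, one_pow, sub_self]
    exact sub_eq_zero.1 (pow_eq_zero_iff hℓ.ne_zero |>.1 h1)
  have hqZ : ((Nat.card k : ℕ) : ZMod ℓ) = 1 := by
    have h1 : 1 < Nat.card k := Finite.one_lt_card
    have h2 := (ZMod.natCast_eq_zero_iff _ _).2 hq
    rwa [Nat.cast_sub h1.le, Nat.cast_one, sub_eq_zero] at h2
  have hφq : φ (Nat.card k : R) = 1 := by
    rw [map_natCast]
    have h1 : ((Nat.card k : ℕ) : κ) = ZMod.castHom (dvd_refl ℓ) κ ((Nat.card k : ℕ) : ZMod ℓ) := by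
      rw [map_natCast]
    rw [h1, hqZ, map_one]
  choose! G hG using hr
  -- the polynomial
  obtain ⟨P, hP⟩ : ∃ P : K[X], LX ℓ w ζ f h D = (P : PowerSeries K) := by
    have h1 := hG 0 hℓ.pos
    rw [pow_zero, C_1, one_mul] at h1
    exact ⟨_, h1⟩
  have hresc : ∀ j < ℓ, P.comp (C (ζ ^ j) * X) = (1 - C (Nat.card k : K) * X) ^ r j * G j := by
    intro j hj
    have h1 := LX_twist hℓ hq he hζ.pow_eq_one j f h D
    rw [← hwd, hG j hj, hP] at h1
    apply Polynomial.coe_injective K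
    rw [h1]
    ext n
    rw [Polynomial.coeff_coe, PowerSeries.coeff_rescale, Polynomial.coeff_coe,
      comp_C_mul_X_coeff, mul_comm]
  obtain ⟨H, hH⟩ := prod_dvd hζ hqK P G r hresc
  set U : R[X] := ∏ j ∈ Finset.range ℓ, (1 - C ((Nat.card k : R) * ζR ^ (ℓ - j)) * X) ^ r j
    with hU
  have hUmap : U.map (algebraMap R K) =
      ∏ j ∈ Finset.range ℓ, (1 - C ((Nat.card k : K) * ζ ^ (ℓ - j)) * X) ^ r j := by
    rw [hU, Polynomial.map_prod]
    refine Finset.prod_congr rfl fun j _ => ?_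
    rw [Polynomial.map_pow, Polynomial.map_sub, Polynomial.map_one, Polynomial.map_mul, map_C,
      map_X, map_mul, map_pow, map_natCast]
    rfl
  have hU0 : U.coeff 0 = 1 := by
    rw [hU, Polynomial.coeff_zero_eq_eval_zero, eval_prod]
    refine Finset.prod_eq_one fun j _ => ?_
    simp
  have hLR : PowerSeries.map (algebraMap R K) (LX ℓ w ζR f h D) =
      ((U.map (algebraMap R K) * H : K[X]) : PowerSeries K) := by
    rw [map_LX, hUmap, ← hH, ← hP]
    rfl
  obtain ⟨G', hG'⟩ := exists_lift hinj hU0 hLR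
  have hκ : LX ℓ w (1 : κ) f h D =
      (((1 - X) ^ (∑ j ∈ Finset.range ℓ, r j) * G'.map φ : κ[X]) : PowerSeries κ) := by
    have h1 := congrArg (PowerSeries.map φ) hG'
    rw [map_LX, hφζ] at h1
    rw [h1]
    have h2 : U.map φ = (1 - X) ^ (∑ j ∈ Finset.range ℓ, r j) := by
      rw [hU, Polynomial.map_prod, ← Finset.prod_pow_eq_pow_sum]
      refine Finset.prod_congr rfl fun j _ => ?_
      rw [Polynomial.map_pow, Polynomial.map_sub, Polynomial.map_one, Polynomial.map_mul, map_C,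
        map_X, map_mul, map_pow, hφζ, hφq, one_pow, one_mul, C_1, one_mul]
    rw [← h2, ← Polynomial.map_mul]
    ext n
    rw [PowerSeries.coeff_map, Polynomial.coeff_coe, Polynomial.coeff_coe, coeff_map]
  -- the identity
  have hid := identity_LL (ℓ := ℓ) hqZ hf hfh hh hD
  have hred := LX_red hℓ hq hw (ZMod.castHom (dvd_refl ℓ) κ) f h D
  have hA : IsMu (ℓ := ℓ) ((∏ R ∈ facs f, (1 - PowerSeries.X ^ R.1.natDegree)) *
      ((∏ P ∈ facs D, (1 - PowerSeries.X ^ P.1.natDegree)) *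
      (if ℓ ∣ h.natDegree + D.natDegree then
        ∏ R ∈ facs f, (1 - PowerSeries.X ^ R.1.natDegree) else 1))) (cA ℓ f h D) := by
    unfold cA
    refine (isMu_facs _).mul ((isMu_facs _).mul ?_)
    split_ifs
    · exact isMu_facs _
    · exact IsMu.one
  have hB : IsMu (ℓ := ℓ) (((∏ P ∈ facs (f.comp h) \ facs D, (1 - PowerSeries.X ^ P.1.natDegree)) *
        ∏ P ∈ facs D, Psi ℓ f P.1.natDegree) *
      ((1 - PowerSeries.X) * (if ℓ ∣ h.natDegree + D.natDegree then 1 - PowerSeries.X else 1)))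
      (cB ℓ f h D) := by
    unfold cB
    refine IsMu.mul ((isMu_facs _).mul (IsMu.prod _ fun P _ => isMu_Psi f (MI.deg_pos P)))
      (IsMu.oneX.mul ?_)
    split_ifs
    · exact IsMu.oneX
    · exact IsMu.one
  obtain ⟨A1, hA1, hA0, hAm⟩ := hA
  obtain ⟨B1, hB1, hB0, hBm⟩ := hB
  rw [← hA1, ← hB1] at hid
  set ι := ZMod.castHom (dvd_refl ℓ) κ with hι
  have hιinj : Function.Injective ι := ι.injective
  have h3 := congrArg (PowerSeries.map ι) hid
  have hcoe : ∀ p : (ZMod ℓ)[X], PowerSeries.map ι (p : PowerSeries (ZMod ℓ)) =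
      ((p.map ι : κ[X]) : PowerSeries κ) := by
    intro p
    ext n
    rw [Polynomial.coeff_coe, PowerSeries.coeff_map, Polynomial.coeff_coe, coeff_map]
  rw [map_mul, ← hred, map_pow, map_pow, hcoe, hcoe, hκ, ← Polynomial.coe_pow,
    ← Polynomial.coe_pow, ← Polynomial.coe_pow, ← Polynomial.coe_mul] at h3
  have h4 := Polynomial.coe_injective κ h3
  have hA0' : A1.map ι ≠ 0 := (Polynomial.map_ne_zero_iff hιinj).2 hA0
  have hB0' : B1.map ι ≠ 0 := (Polynomial.map_ne_zero_iff hιinj).2 hB0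
  set T := (1 - X : κ[X]) ^ (∑ j ∈ Finset.range ℓ, r j) * G'.map φ with hT
  have hT0 : T ≠ 0 := by
    intro h0
    rw [h0, zero_pow (by have := hℓ.two_le; omega), zero_mul] at h4
    exact pow_ne_zero _ hB0' h4.symm
  have h5 := congrArg (Polynomial.rootMultiplicity 1) h4
  rw [rm_mul 1 (pow_ne_zero _ hT0) (pow_ne_zero _ hA0'), rm_pow 1 hT0, rm_pow 1 hA0',
    rm_pow 1 hB0'] at h5
  have h6 : (A1.map ι).rootMultiplicity 1 = cA ℓ f h D := by
    rw [← hAm, ← map_one ι]
    exact (Polynomial.eq_rootMultiplicity_map hιinj 1).symm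
  have h7 : (B1.map ι).rootMultiplicity 1 = cB ℓ f h D := by
    rw [← hBm, ← map_one ι]
    exact (Polynomial.eq_rootMultiplicity_map hιinj 1).symm
  have h8 : ∑ j ∈ Finset.range ℓ, r j ≤ T.rootMultiplicity 1 := by
    rw [le_rootMultiplicity_iff hT0, hT]
    refine Dvd.dvd.mul_right ?_ _
    have h9 : (1 - X : κ[X]) = -(X - C 1) := by rw [C_1]; ring
    rw [h9, neg_pow]
    exact dvd_mul_left _ _
  rw [h6, h7, ← Nat.mul_add] at h5
  have h10 : T.rootMultiplicity 1 + cA ℓ f h D = cB ℓ f h D :=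
    Nat.eq_of_mul_eq_mul_left (by have := hℓ.two_le; omega) h5
  omega

end bound

end Pool.Agent.U695.SL
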